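import Pool.Agent.Y709.Kum.CountH

/-!
The number of the twists with a zero over some covering whose group is an extension of an abelian group
of exponent dividing `μ` by a `p`-group, for given elements of Kummer type.
-/

set_option autoImplicit false
set_option linter.unusedSectionVars false

open Polynomial Module

namespace Pool.Agent.Y709.Kum

open Pool.Agent.W313.Hyp Pool.Agent.W343.BSD Pool.Agent.Y709 Pool.Agent.Y709.Gen
open Pool.Agent.Y709.Lay Pool.Agent.Y709.Irr Pool.Agent.Y709.IrrS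

section bound

variable {k : Type} [Field k] [Fintype k] {r q : ℕ}

/-- **the number of the twists with a zero over some covering, simple collisions** -/
theorem countIX {p f₀ s : ℕ} [hp : Fact p.Prime] [CharP k p] (hq : q = p ^ f₀) (hf₀ : 0 < f₀)
    (hs : 0 < s) (hk : Fintype.card k = q ^ s) (B : k[X]) (hB : B ≠ 0)
    (b : ℕ) (hb : ∀ P : k[X], Irreducible P → ¬ P ^ (b + 1) ∣ B) {β : Fin (r + 1) → k[X]}
    {m : Fin (r + 1) → ℕ} {d : ℕ} (h : Simple β d) (hm : ∀ i, 0 < m i)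
    (hmp : ∑ l, m l < p) (hrn : r * ∑ l, m l ≤ q - 1) {μ κ a : ℕ} (hμ : 0 < μ)
    (hμκ : μ * κ = q - 1) (γ : Fin a → k[X]) (hγ0 : ∀ i, γ i ≠ 0)
    (hγ : ∀ i, ∀ P : k[X], Irreducible P → P ∣ γ i → P ∣ B)
    (hcop : ∀ P : k[X], Irreducible P → P ∣ B → ∀ i j, i ≠ j → ¬ P ∣ β i - β j)
    (hn4 : ∑ l, m l + 3 * r + 4 ≤ q) (hnb : b + 3 * r + 3 ≤ κ) (hrq : 4 * (r + 1) ^ 2 ≤ q) (f ρ V N e : ℕ)
    (hf : f = B.natDegree + d * ∑ l, m l) (he : e ∣ q - 1) (hρ : 2 * r + 1 ≤ ρ) (hρκ : ρ + 1 ≤ κ)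
    (hV : μ * (8 * (r + 1) ^ 2 * (f + (q - 1) * (∑ i, (γ i).natDegree) + 1)) ≤ V) (hN : N + f = κ * V + ρ) :
    q * {D : k[X] | D.natDegree ≤ N ∧ VanFX p (q - 1) e μ a γ (D * B) β m}.ncard ≤
      2 * e * μ ^ a * Nat.card k ^ (N + 1) := by
  obtain ⟨φ⟩ := exists_const k p f₀ s hf₀ (by rw [hk, hq])
  let k₀ := GaloisField p f₀
  let _ : Algebra k₀ k := φ.toAlgebra
  have hfin : Finite k₀ := Nat.finite_of_card_ne_zero (by
    rw [GaloisField.card p f₀ hf₀.ne']
    exact pow_ne_zero _ hp.out.ne_zero)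
  let _ : Fintype k₀ := Fintype.ofFinite k₀
  have hk₀ : Fintype.card k₀ = q := by
    rw [← Nat.card_eq_fintype_card, GaloisField.card p f₀ hf₀.ne', hq]
  have hcp : CharP k₀ p := φ.charP φ.injective p
  have hinv : ∀ i : ℕ, i < ∑ l, m l → ((i : k₀) + 1) ≠ 0 := by
    intro i hi h
    have h1 : ((i + 1 : ℕ) : k₀) = 0 := by rw [Nat.cast_succ, h]
    rw [CharP.cast_eq_zero_iff k₀ p] at h1
    have h2 := Nat.le_of_dvd (Nat.succ_pos i) h1
    omega
  have hinv' : ∀ i : ℕ, i < ∑ l, m l → ((i : k) + 1) ≠ 0 := by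
    intro i hi h
    have h1 : ((i + 1 : ℕ) : k) = 0 := by rw [Nat.cast_succ, h]
    rw [CharP.cast_eq_zero_iff k p] at h1
    have h2 := Nat.le_of_dvd (Nat.succ_pos i) h1
    omega
  have hκμ : κ ≤ q - 1 := by
    rw [← hμκ]
    exact Nat.le_mul_of_pos_left κ hμ
  have hμq : μ ∣ q - 1 := ⟨κ, hμκ.symm⟩
  have hκ : (q - 1) / μ = κ := by rw [← hμκ, Nat.mul_div_cancel_left _ hμ]
  -- the parts free of powers
  have hg0 : ∀ v : Fin a → Fin μ, ∏ i, γ i ^ (v i : ℕ) ≠ 0 := fun v =>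
    Finset.prod_ne_zero_iff.2 fun i _ => pow_ne_zero _ (hγ0 i)
  have hfree := fun v : Fin a → Fin μ => exists_free hμ (∏ i, γ i ^ (v i : ℕ)) (hg0 v)
  choose α δ hαδ hα using hfree
  have hα0 : ∀ j, α j ≠ 0 := by
    intro j h0
    have h1 := hαδ j
    rw [h0, zero_mul] at h1
    exact hg0 j h1.symm
  have hδ0 : ∀ j, δ j ≠ 0 := by
    intro j h0
    have h1 := hαδ j
    rw [h0, zero_pow hμ.ne', mul_zero] at h1
    exact hg0 j h1.symm
  set F : (Fin a → Fin μ) → k[X] := fun j => α j ^ κ with hFdef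
  have hF : ∀ v, ∃ δ : k[X], F v * δ ^ (q - 1) = ∏ i, γ i ^ ((v i : ℕ) * ((q - 1) / μ)) := by
    intro v
    refine ⟨δ v, ?_⟩
    rw [hFdef, hκ]
    show α v ^ κ * δ v ^ (q - 1) = _
    have h1 : ∏ i, γ i ^ ((v i : ℕ) * κ) = (∏ i, γ i ^ (v i : ℕ)) ^ κ := by
      rw [← Finset.prod_pow]
      exact Finset.prod_congr rfl fun i _ => pow_mul _ _ _
    rw [h1, ← hαδ v, mul_pow, ← pow_mul, hμκ]
  have hdα : ∀ j, κ * (α j).natDegree ≤ (q - 1) * ∑ i, (γ i).natDegree := by
    intro j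
    have h1 : (α j).natDegree ≤ μ * ∑ i, (γ i).natDegree := by
      have h2 := congrArg natDegree (hαδ j)
      rw [natDegree_mul (hα0 j) (pow_ne_zero _ (hδ0 j)), natDegree_pow] at h2
      have h3 : (∏ i, γ i ^ (j i : ℕ)).natDegree ≤ μ * ∑ i, (γ i).natDegree := by
        refine (natDegree_prod_le _ _).trans ?_
        rw [Finset.mul_sum]
        refine Finset.sum_le_sum fun i _ => ?_
        exact natDegree_pow_le.trans (Nat.mul_le_mul_right _ (j i).2.le)
      omega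
    calc κ * (α j).natDegree ≤ κ * (μ * ∑ i, (γ i).natDegree) := Nat.mul_le_mul_left _ h1
      _ = (q - 1) * ∑ i, (γ i).natDegree := by rw [← hμκ]; ring
  -- the bound for each of them
  have h6 : ∀ j, q * Nat.card {D : k[X] // D.natDegree ≤ N ∧ ∃ w : Fin r → k[X], w ≠ 0 ∧
      ∀ i, cart q (D * ∑ l, minor (B * F j) β m i l * w l) =
        (w i).map (iterateFrobenius k p f₀)} ≤ 2 * Nat.card k ^ (N + 1) := by
    intro j
    have hFj : F j ≠ 0 := pow_ne_zero _ (hα0 j)
    set a' := (α j).natDegree with ha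
    set V' := (V + a') / μ with hV'
    set i := (V + a') % μ with hi
    have hVi : V + a' = μ * V' + i := (Nat.div_add_mod (V + a') μ).symm
    have hiμ : i < μ := Nat.mod_lt _ hμ
    have hμ1 : (μ - 1) * κ + κ = q - 1 := by
      rw [← hμκ, ← Nat.succ_mul]
      congr 1
      omega
    have hiκ : i * κ ≤ (μ - 1) * κ := Nat.mul_le_mul_right _ (by omega)
    have hmle : ∀ i, m i < q := by
      intro i
      have : m i ≤ ∑ i, m i := Finset.single_le_sum (f := m) (fun _ _ => Nat.zero_le _)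
        (Finset.mem_univ i)
      omega
    have hinj : Function.Injective β := by
      intro i j hij
      by_contra hne
      exact h.ne hne (sub_eq_zero.2 hij)
    have hdet := det_minor (k := k) hq hf₀ (one_ne_zero (α := k[X])) hinj hm hmle hinv'
    have hFdvd : ∀ P : k[X], Irreducible P → P ∣ B * F j → P ∣ B := by
      intro P hP hd
      rcases hP.prime.dvd_or_dvd hd with h1 | h1
      · exact h1
      · have h2 : P ∣ α j := hP.prime.dvd_of_dvd_pow h1
        have h3 : P ∣ ∏ i, γ i ^ (j i : ℕ) := by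
          rw [← hαδ j]
          exact h2.mul_right _
        obtain ⟨i, _, h4⟩ := (hP.prime.dvd_finsetProd_iff _).1 h3
        exact hγ i P hP (hP.prime.dvd_of_dvd_pow h4)
    refine simple_boundC hq hf₀ hs hk (B * F j) (mul_ne_zero hB hFj)
      (max (∑ l, m l) (b + (μ - 1) * κ)) h hm hinv' hrn ?_ (le_max_left _ _) ?_ hrq (f + κ * a')
      (i * κ + ρ) V' N ?_ (by omega) (by omega) ?_ ?_
    · intro P hP
      refine mult_coprime h hm hinv' hdet (b + (μ - 1) * κ) ?_
        (fun Q hQ hQd => hcop Q hQ (hFdvd Q hQ hQd)) _ (le_max_right _ _) (le_max_left _ _) hP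
      intro P hP
      have h1 : ¬ P ^ (μ - 1 + 1) ∣ α j := by
        rw [Nat.sub_add_cancel hμ]
        exact hα j P hP
      have h2 := not_pow_dvd_pow hP h1 κ
      have h3 := not_pow_dvd_mul hP.prime (hb P hP) h2
      rwa [mul_comm κ] at h3
    · rcases le_total (∑ l, m l) (b + (μ - 1) * κ) with h1 | h1
      · rw [max_eq_right h1]
        omega
      · rw [max_eq_left h1]
        omega
    · rw [natDegree_mul hB hFj, hFdef]
      show f + κ * a' = B.natDegree + (α j ^ κ).natDegree + d * ∑ l, m l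
      rw [natDegree_pow, hf]
      ring
    · rw [hV', Nat.le_div_iff_mul_le hμ, mul_comm]
      refine le_trans ?_ (hV.trans (Nat.le_add_right V a'))
      refine Nat.mul_le_mul_left _ (Nat.mul_le_mul_left _ ?_)
      have h1 := hdα j
      rw [← ha] at h1
      omega
    · have h1 : κ * (V + a') = (q - 1) * V' + i * κ := by
        rw [hVi, ← hμκ]
        ring
      rw [mul_add] at h1
      omega
  have hn0 : 0 < ∑ i, m i := Finset.sum_pos (fun i _ => hm i) ⟨0, Finset.mem_univ _⟩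
  have hq0 : 0 < q := by omega
  have h7 := countF_of_bound (k₀ := k₀) (k := k) (p := p) (s := s) Pool.Agent.Y363.Kum.kummerDegreeFam
    Pool.Agent.Y468.Kum.kummerProd Pool.Agent.Y427.Kum.kummerOrder hq hf₀ hk₀ hs hk (by omega) B β m
    hm (by omega) hinv N e (2 * Nat.card k ^ (N + 1) / q) he hμ hμq γ hγ0 hγ F hF (fun j => by
      rw [Nat.le_div_iff_mul_le hq0, mul_comm]
      exact h6 j)
  have h8 : {D : k[X] | D.natDegree ≤ N ∧ VanFX p (q - 1) e μ a γ (D * B) β m}.ncard ≤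
      {D : k[X] | D.natDegree ≤ N ∧ VanF k₀ p q s e μ a γ (D * B) β m}.ncard :=
    Set.ncard_le_ncard (fun D hD => ⟨hD.1, vanF_of_vanFX hk₀ hk hD.2⟩)
      ((finite_natDegree_le N).subset fun D hD => hD.1)
  calc q * {D : k[X] | D.natDegree ≤ N ∧ VanFX p (q - 1) e μ a γ (D * B) β m}.ncard ≤
      q * (e * (μ ^ a * (2 * Nat.card k ^ (N + 1) / q))) := Nat.mul_le_mul_left q (h8.trans h7)
    _ = e * μ ^ a * (q * (2 * Nat.card k ^ (N + 1) / q)) := by ring
    _ ≤ e * μ ^ a * (2 * Nat.card k ^ (N + 1)) := Nat.mul_le_mul_left _ (Nat.mul_div_le _ _)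
    _ = _ := by ring

end bound

end Pool.Agent.Y709.Kum
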