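import Pool.Agent.Y709.Kum.Stm

/-!
Statements of three lemmas about coverings of the line whose group is an extension of an abelian group
by a `p`-group.
-/

set_option autoImplicit false

open Polynomial

namespace Pool.Agent.Y709.Kum

/-- The residue degrees of an unramified point of a Galois covering of the line over a finite field whose
group is an extension of an abelian group of Kummer type by a `p`-group. -/
def KummerDegreeFam : Prop :=
  ∀ (k : Type) [Field k] [Finite k] (O : Type) [CommRing O] [Algebra k[X] O] (Γ : Type) [Group Γ]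
    [Finite Γ] [MulSemiringAction Γ O] [IsGaloisGroup Γ k[X] O] (p : ℕ) [Fact p.Prime] (μ a : ℕ)
    (_ : 0 < μ) (_ : μ ∣ Nat.card k - 1) (w : Fin a → O) (g : Fin a → k[X])
    (_ : ∀ i, w i ^ μ = algebraMap k[X] O (g i))
    (_ : ∀ i, ∀ σ : Γ, ∃ c : k, σ • w i = algebraMap k[X] O (C c) * w i)
    (_ : IsPGroup p (⨅ i, MulAction.stabilizer Γ (w i) : Subgroup Γ)) (𝔪 : MaximalSpectrum O)
    (_ : 𝔪.asIdeal.inertia Γ = ⊥) (_ : ∀ i, w i ∉ 𝔪.asIdeal) (d : ℕ)
    (_ : d = Module.finrank k (k[X] ⧸ 𝔪.asIdeal.under k[X])),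
    ∃ c : ℕ, 𝔪.asIdeal.inertiaDeg k[X] =
      orderOf (fun i => (Ideal.Quotient.mk 𝔪.asIdeal (algebraMap k[X] O (g i))) ^
        ((Nat.card k ^ d - 1) / μ)) * p ^ c

/-- The order of the group. -/
def KummerOrder : Prop :=
  ∀ (k : Type) [Field k] [Finite k] (O : Type) [CommRing O] [Algebra k[X] O] (Γ : Type) [Group Γ]
    [Finite Γ] [MulSemiringAction Γ O] [IsGaloisGroup Γ k[X] O] [FaithfulSMul k[X] O] (p : ℕ)
    [Fact p.Prime] (μ a : ℕ) (_ : 0 < μ) (_ : μ ∣ Nat.card k - 1) (w : Fin a → O)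
    (g : Fin a → k[X]) (_ : ∀ i, w i ^ μ = algebraMap k[X] O (g i)) (_ : ∀ i, g i ≠ 0)
    (_ : ∀ i, ∀ σ : Γ, ∃ c : k, σ • w i = algebraMap k[X] O (C c) * w i)
    (_ : IsPGroup p (⨅ i, MulAction.stabilizer Γ (w i) : Subgroup Γ)),
    ∃ n₀ c : ℕ, Nat.card Γ = n₀ * p ^ c ∧ n₀ ∣ μ ^ a

/-- Products over the characters of an abelian group. -/
def KummerProd : Prop :=
  ∀ (K : Type) [Field K] (μ a : ℕ) (_ : 0 < μ) (U : Fin a → K) (_ : ∀ i, U i ^ μ = 1) (M : Type)
    [CommMonoid M] (F : K → M), ∃ (u : K) (t : ℕ), orderOf u = orderOf U ∧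
      μ ^ a = orderOf U * t ∧ ∏ v : Fin a → Fin μ, F (∏ i, U i ^ (v i : ℕ)) =
        (∏ j ∈ Finset.range (orderOf U), F (u ^ j)) ^ t

end Pool.Agent.Y709.Kum
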