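import Pool.Agent.Y709.Kum.MainK
import Pool.Agent.Y709.IrrS.Count

/-!
The number of the twists with a zero over some covering whose group is an extension of a cyclic group
by a `p`-group.
-/

set_option autoImplicit false
set_option linter.unusedSectionVars false

open Polynomial Module

namespace Pool.Agent.Y709.Kum

open Pool.Agent.W313.Hyp Pool.Agent.W343.BSD Pool.Agent.Y709 Pool.Agent.Y709.Gen
open Pool.Agent.Y709.Lay Pool.Agent.Y709.Irr Pool.Agent.Y709.IrrS

section free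

variable {k : Type} [Field k] [Fintype k]

/-- the part free of `μ`-th powers -/
theorem exists_free {μ : ℕ} (hμ : 0 < μ) (γ : k[X]) (hγ : γ ≠ 0) : ∃ α δ : k[X],
    α * δ ^ μ = γ ∧ ∀ P : k[X], Irreducible P → ¬ P ^ μ ∣ α := by
  induction hn : γ.natDegree using Nat.strong_induction_on generalizing γ with
  | _ n ih =>
    by_cases h : ∃ P : k[X], Irreducible P ∧ P ^ μ ∣ γ
    · obtain ⟨P, hP, γ', rfl⟩ := h
      have hγ' : γ' ≠ 0 := right_ne_zero_of_mul hγ
      have hlt : γ'.natDegree < n := by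
        rw [← hn, natDegree_mul (pow_ne_zero _ hP.ne_zero) hγ', natDegree_pow]
        have h1 : 0 < μ * P.natDegree := Nat.mul_pos hμ hP.natDegree_pos
        omega
      obtain ⟨α, δ, h1, h2⟩ := ih _ hlt γ' hγ' rfl
      refine ⟨α, P * δ, ?_, h2⟩
      rw [← h1]
      ring
    · refine ⟨γ, 1, by rw [one_pow, mul_one], fun P hP hd => h ⟨P, hP, hd⟩⟩

theorem not_pow_dvd_pow {P α : k[X]} (hP : Irreducible P) {a : ℕ} (h : ¬ P ^ (a + 1) ∣ α) (n : ℕ) :
    ¬ P ^ (n * a + 1) ∣ α ^ n := by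
  induction n with
  | zero =>
    rw [zero_mul, zero_add, pow_one, pow_zero]
    exact hP.not_dvd_one
  | succ n ih =>
    have h1 := not_pow_dvd_mul hP.prime ih h
    rw [pow_succ, Nat.succ_mul]
    exact h1

end free

section bound

variable {k : Type} [Field k] [Fintype k] {r q : ℕ}

/-- **the number of the twists with a zero over some covering, simple collisions** -/
theorem countKX {p f₀ s : ℕ} [hp : Fact p.Prime] [CharP k p] (hq : q = p ^ f₀) (hf₀ : 0 < f₀)
    (hs : 0 < s) (hk : Fintype.card k = q ^ s) (B : k[X]) (hB : B ≠ 0)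
    (b : ℕ) (hb : ∀ P : k[X], Irreducible P → ¬ P ^ (b + 1) ∣ B) {β : Fin (r + 1) → k[X]}
    {m : Fin (r + 1) → ℕ} {d : ℕ} (h : Simple β d) (hm : ∀ i, 0 < m i)
    (hmp : ∑ l, m l < p) (hrn : r * ∑ l, m l ≤ q - 1) {μ κ : ℕ} (hμ : 0 < μ)
    (hμκ : μ * κ = q - 1) (γ : k[X]) (hγ0 : γ ≠ 0)
    (hγ : ∀ P : k[X], Irreducible P → P ∣ γ → P ∣ B)
    (hnb : ∑ l, m l + b + 3 * r + 3 ≤ κ) (hrq : 4 * (r + 1) ^ 2 ≤ q) (f ρ V N e : ℕ)
    (hf : f = B.natDegree + d * ∑ l, m l) (he : e ∣ q - 1) (hρ : 2 * r + 1 ≤ ρ) (hρκ : ρ + 1 ≤ κ)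
    (hV : μ * (8 * (r + 1) ^ 2 * (f + (q - 1) * γ.natDegree + 1)) ≤ V) (hN : N + f = κ * V + ρ) :
    q * {D : k[X] | D.natDegree ≤ N ∧ VanKX p (q - 1) e μ γ (D * B) β m}.ncard ≤
      2 * e * μ * Nat.card k ^ (N + 1) := by
  obtain ⟨φ⟩ := exists_const k p f₀ s hf₀ (by rw [hk, hq])
  let k₀ := GaloisField p f₀
  let _ : Algebra k₀ k := φ.toAlgebra
  have hfin : Finite k₀ := Nat.finite_of_card_ne_zero (by
    rw [GaloisField.card p f₀ hf₀.ne']
    exact pow_ne_zero _ hp.out.ne_zero)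
  let _ : Fintype k₀ := Fintype.ofFinite k₀
  have hk₀ : Fintype.card k₀ = q := by
    rw [← Nat.card_eq_fintype_card, GaloisField.card p f₀ hf₀.ne', hq]
  have hcp : CharP k₀ p := φ.charP φ.injective p
  have hinv : ∀ i : ℕ, i < ∑ l, m l → ((i : k₀) + 1) ≠ 0 := by
    intro i hi h
    have h1 : ((i + 1 : ℕ) : k₀) = 0 := by rw [Nat.cast_succ, h]
    rw [CharP.cast_eq_zero_iff k₀ p] at h1
    have h2 := Nat.le_of_dvd (Nat.succ_pos i) h1
    omega
  have hinv' : ∀ i : ℕ, i < ∑ l, m l → ((i : k) + 1) ≠ 0 := by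
    intro i hi h
    have h1 : ((i + 1 : ℕ) : k) = 0 := by rw [Nat.cast_succ, h]
    rw [CharP.cast_eq_zero_iff k p] at h1
    have h2 := Nat.le_of_dvd (Nat.succ_pos i) h1
    omega
  have hκμ : κ ≤ q - 1 := by
    rw [← hμκ]
    exact Nat.le_mul_of_pos_left κ hμ
  have hμq : μ ∣ q - 1 := ⟨κ, hμκ.symm⟩
  have hκ : (q - 1) / μ = κ := by rw [← hμκ, Nat.mul_div_cancel_left _ hμ]
  -- the parts free of powers
  have hfree := fun j : ℕ => exists_free hμ (γ ^ j) (pow_ne_zero j hγ0)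
  choose α δ hαδ hα using hfree
  have hα0 : ∀ j, α j ≠ 0 := by
    intro j h0
    have h1 := hαδ j
    rw [h0, zero_mul] at h1
    exact pow_ne_zero j hγ0 h1.symm
  have hδ0 : ∀ j, δ j ≠ 0 := by
    intro j h0
    have h1 := hαδ j
    rw [h0, zero_pow hμ.ne', mul_zero] at h1
    exact pow_ne_zero j hγ0 h1.symm
  set F : ℕ → k[X] := fun j => α j ^ κ with hFdef
  have hF : ∀ j < μ, ∃ δ : k[X], F j * δ ^ (q - 1) = γ ^ (j * ((q - 1) / μ)) := by
    intro j _
    refine ⟨δ j, ?_⟩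
    rw [hFdef, hκ]
    show α j ^ κ * δ j ^ (q - 1) = _
    rw [pow_mul, ← hαδ j, mul_pow, ← pow_mul, hμκ]
  have hdα : ∀ j < μ, κ * (α j).natDegree ≤ (q - 1) * γ.natDegree := by
    intro j hj
    have h1 : (α j).natDegree ≤ μ * γ.natDegree := by
      have h2 := congrArg natDegree (hαδ j)
      rw [natDegree_mul (hα0 j) (pow_ne_zero _ (hδ0 j)), natDegree_pow, natDegree_pow] at h2
      have h3 : j * γ.natDegree ≤ μ * γ.natDegree := Nat.mul_le_mul_right _ hj.le
      omega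
    calc κ * (α j).natDegree ≤ κ * (μ * γ.natDegree) := Nat.mul_le_mul_left _ h1
      _ = (q - 1) * γ.natDegree := by rw [← hμκ]; ring
  -- the bound for each of them
  have h6 : ∀ j < μ, q * Nat.card {D : k[X] // D.natDegree ≤ N ∧ ∃ w : Fin r → k[X], w ≠ 0 ∧
      ∀ i, cart q (D * ∑ l, minor (B * F j) β m i l * w l) =
        (w i).map (iterateFrobenius k p f₀)} ≤ 2 * Nat.card k ^ (N + 1) := by
    intro j hj
    have hFj : F j ≠ 0 := pow_ne_zero _ (hα0 j)
    set a := (α j).natDegree with ha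
    set V' := (V + a) / μ with hV'
    set i := (V + a) % μ with hi
    have hVi : V + a = μ * V' + i := (Nat.div_add_mod (V + a) μ).symm
    have hiμ : i < μ := Nat.mod_lt _ hμ
    have hμ1 : (μ - 1) * κ + κ = q - 1 := by
      rw [← hμκ, ← Nat.succ_mul]
      congr 1
      omega
    have hiκ : i * κ ≤ (μ - 1) * κ := Nat.mul_le_mul_right _ (by omega)
    refine simple_boundS hq hf₀ hs hk (B * F j) (mul_ne_zero hB hFj) (b + (μ - 1) * κ) ?_ h hm
      hinv' hrn (by omega) hrq (f + κ * a) (i * κ + ρ) V' N ?_ (by omega) (by omega) ?_ ?_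
    · intro P hP
      have h1 : ¬ P ^ (μ - 1 + 1) ∣ α j := by
        rw [Nat.sub_add_cancel hμ]
        exact hα j P hP
      have h2 := not_pow_dvd_pow hP h1 κ
      have h3 := not_pow_dvd_mul hP.prime (hb P hP) h2
      rwa [mul_comm κ] at h3
    · rw [natDegree_mul hB hFj, hFdef]
      show f + κ * a = B.natDegree + (α j ^ κ).natDegree + d * ∑ l, m l
      rw [natDegree_pow, hf]
      ring
    · rw [hV', Nat.le_div_iff_mul_le hμ, mul_comm]
      refine le_trans ?_ (hV.trans (Nat.le_add_right V a))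
      refine Nat.mul_le_mul_left _ (Nat.mul_le_mul_left _ ?_)
      have h1 := hdα j hj
      rw [← ha] at h1
      omega
    · have h1 : κ * (V + a) = (q - 1) * V' + i * κ := by
        rw [hVi, ← hμκ]
        ring
      rw [mul_add] at h1
      omega
  have hn0 : 0 < ∑ i, m i := Finset.sum_pos (fun i _ => hm i) ⟨0, Finset.mem_univ _⟩
  have hq0 : 0 < q := by omega
  have h7 := countK_of_bound (k₀ := k₀) (k := k) (p := p) (s := s) hq hf₀ hk₀ hs hk (by omega) B β m
    hm (by omega) hinv N e (2 * Nat.card k ^ (N + 1) / q) he hμ hμq γ hγ F hF (fun j hj => by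
      rw [Nat.le_div_iff_mul_le hq0, mul_comm]
      exact h6 j hj)
  have h8 : {D : k[X] | D.natDegree ≤ N ∧ VanKX p (q - 1) e μ γ (D * B) β m}.ncard ≤
      {D : k[X] | D.natDegree ≤ N ∧ VanK k₀ p q s e μ γ (D * B) β m}.ncard :=
    Set.ncard_le_ncard (fun D hD => ⟨hD.1, vanK_of_vanKX hk₀ hk hD.2⟩)
      ((finite_natDegree_le N).subset fun D hD => hD.1)
  calc q * {D : k[X] | D.natDegree ≤ N ∧ VanKX p (q - 1) e μ γ (D * B) β m}.ncard ≤
      q * (e * (μ * (2 * Nat.card k ^ (N + 1) / q))) := Nat.mul_le_mul_left q (h8.trans h7)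
    _ = e * μ * (q * (2 * Nat.card k ^ (N + 1) / q)) := by ring
    _ ≤ e * μ * (2 * Nat.card k ^ (N + 1)) := Nat.mul_le_mul_left _ (Nat.mul_div_le _ _)
    _ = _ := by ring

end bound

end Pool.Agent.Y709.Kum
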