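import Pool.Agent.Y709.Kum.CountF

/-!
The number of the twists with a zero over some covering whose group is an extension of any abelian group
of exponent dividing `μ` by a `p`-group.
-/

set_option autoImplicit false
set_option linter.unusedSectionVars false

open Polynomial Module

namespace Pool.Agent.Y709.Kum

open Pool.Agent.W313.Hyp Pool.Agent.W343.BSD Pool.Agent.Y709 Pool.Agent.Y709.Gen
open Pool.Agent.Y709.Lay Pool.Agent.Y709.Irr Pool.Agent.Y709.IrrS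

section cls

variable {k : Type} [Field k] [Fintype k]

/-- the monic irreducible factors of `B` -/
def primes (B : k[X]) : Set k[X] := {P | P.Monic ∧ Irreducible P ∧ P ∣ B}

theorem primes_finite {B : k[X]} (hB : B ≠ 0) : (primes B).Finite :=
  (finite_natDegree_le (k := k) B.natDegree).subset fun _ hP => natDegree_le_of_dvd hP.2.2 hB

theorem exists_factor (B : k[X]) (T : Finset k[X]) (hT : ∀ P, P ∈ T ↔ P ∈ primes B) (α : k[X])
    (hα : α ≠ 0) (h : ∀ P : k[X], Irreducible P → P ∣ α → P ∣ B) :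
    ∃ (c : k) (n : k[X] → ℕ), c ≠ 0 ∧ α = C c * ∏ P ∈ T, P ^ n P := by
  classical
  induction hn : α.natDegree using Nat.strong_induction_on generalizing α with
  | _ n ih =>
    by_cases h0 : α.natDegree = 0
    · obtain ⟨c, hc⟩ := natDegree_eq_zero.1 h0
      refine ⟨c, fun _ => 0, ?_, ?_⟩
      · rintro rfl
        rw [map_zero] at hc
        exact hα hc.symm
      · simp [hc]
    · have hu : ¬ IsUnit α := fun hu => h0 (natDegree_eq_zero_of_isUnit hu)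
      obtain ⟨P₀, hP₀, hd₀⟩ := WfDvdMonoid.exists_irreducible_factor hu hα
      set P : k[X] := P₀ * C P₀.leadingCoeff⁻¹ with hPdef
      have hlc : P₀.leadingCoeff ≠ 0 := leadingCoeff_ne_zero.2 hP₀.ne_zero
      have hunit : IsUnit (C P₀.leadingCoeff⁻¹ : k[X]) :=
        isUnit_C.2 (isUnit_iff_ne_zero.2 (inv_ne_zero hlc))
      have hass : Associated P₀ P := (associated_mul_unit_right P₀ _ hunit)
      have hPm : P.Monic := monic_mul_leadingCoeff_inv hP₀.ne_zero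
      have hPi : Irreducible P := hass.irreducible hP₀
      have hPd : P ∣ α := hass.symm.dvd.trans hd₀
      have hPT : P ∈ T := (hT P).2 ⟨hPm, hPi, h P hPi hPd⟩
      obtain ⟨α', hα'⟩ := hPd
      have hα'0 : α' ≠ 0 := by
        rintro rfl
        exact hα (by rw [hα', mul_zero])
      have hlt : α'.natDegree < n := by
        rw [← hn, hα', natDegree_mul hPi.ne_zero hα'0]
        have := hPi.natDegree_pos
        omega
      obtain ⟨c, m, hc, hm⟩ := ih _ hlt α' hα'0 (fun Q hQ hd => h Q hQ (by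
        rw [hα']
        exact hd.mul_left _)) rfl
      refine ⟨c, fun Q => m Q + if Q = P then 1 else 0, hc, ?_⟩
      rw [hα', hm]
      have h1 : ∏ Q ∈ T, Q ^ (m Q + if Q = P then 1 else 0) = (∏ Q ∈ T, Q ^ m Q) * P := by
        rw [Finset.prod_congr rfl fun Q _ => pow_add Q (m Q) (if Q = P then 1 else 0),
          Finset.prod_mul_distrib]
        congr 1
        rw [Finset.prod_eq_single P]
        · simp
        · intro Q _ hne
          rw [if_neg hne, pow_zero]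
        · intro h2
          exact absurd hPT h2
      rw [h1]
      ring

theorem sum_deg_le {B : k[X]} (hB : B ≠ 0) (T : Finset k[X]) (hT : ∀ P, P ∈ T ↔ P ∈ primes B) :
    ∑ P ∈ T, P.natDegree ≤ B.natDegree := by
  have h1 : ∏ P ∈ T, P ∣ B := by
    refine Finset.prod_dvd_of_coprime ?_ fun P hP => ((hT P).1 hP).2.2
    intro P hP Q hQ hne
    obtain ⟨hPm, hPi, _⟩ := (hT P).1 hP
    obtain ⟨hQm, hQi, _⟩ := (hT Q).1 hQ
    show IsCoprime P Q
    rw [hPi.coprime_iff_not_dvd]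
    intro hd
    exact hne (eq_of_monic_of_associated hPm hQm (hPi.associated_of_dvd hQi hd))
  have h2 := natDegree_le_of_dvd h1 hB
  rwa [natDegree_prod_of_monic _ _ fun P hP => ((hT P).1 hP).1] at h2

/-- the representative of a class -/
noncomputable def rep (ζ : k) {μ : ℕ} (T : Finset k[X]) (x : Fin μ × (T → Fin μ)) : k[X] :=
  C (ζ ^ (x.1 : ℕ)) * ∏ P : T, P.1 ^ (x.2 P : ℕ)

theorem exists_class (B : k[X]) (T : Finset k[X]) (hT : ∀ P, P ∈ T ↔ P ∈ primes B) {μ : ℕ}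
    (hμ : 0 < μ) {ζ : k} (hζ : ∀ c : k, c ≠ 0 → ∃ n : ℕ, c = ζ ^ n) (α : k[X]) (hα : α ≠ 0)
    (h : ∀ P : k[X], Irreducible P → P ∣ α → P ∣ B) :
    ∃ (x : Fin μ × (T → Fin μ)) (ε : k[X]), rep ζ T x * ε ^ μ = α := by
  obtain ⟨c, n, hc, hα'⟩ := exists_factor B T hT α hα h
  obtain ⟨N, hN⟩ := hζ c hc
  refine ⟨(⟨N % μ, Nat.mod_lt _ hμ⟩, fun P => ⟨n P.1 % μ, Nat.mod_lt _ hμ⟩),
    C (ζ ^ (N / μ)) * ∏ P : T, P.1 ^ (n P.1 / μ), ?_⟩
  unfold rep
  have h1 : ∏ P ∈ T, P ^ n P = ∏ P : T, P.1 ^ n P.1 := (Finset.prod_coe_sort T _).symm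
  rw [hα', hN, h1, mul_pow, ← Finset.prod_pow, mul_mul_mul_comm, ← Finset.prod_mul_distrib,
    ← C_pow, ← C_mul]
  congr 1
  · rw [← pow_mul, ← pow_add]
    congr 2
    show N % μ + N / μ * μ = N
    rw [mul_comm]
    exact Nat.mod_add_div N μ
  · refine Finset.prod_congr rfl fun P _ => ?_
    rw [← pow_mul, ← pow_add]
    congr 1
    show n P.1 % μ + n P.1 / μ * μ = n P.1
    rw [mul_comm]
    exact Nat.mod_add_div _ μ

theorem rep_ne_zero (B : k[X]) (T : Finset k[X]) (hT : ∀ P, P ∈ T ↔ P ∈ primes B) {μ : ℕ}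
    {ζ : k} (hζ0 : ζ ≠ 0) (x : Fin μ × (T → Fin μ)) : rep ζ T x ≠ 0 := by
  unfold rep
  refine mul_ne_zero (C_ne_zero.2 (pow_ne_zero _ hζ0)) (Finset.prod_ne_zero_iff.2 fun P _ => ?_)
  exact pow_ne_zero _ ((hT P.1).1 P.2).2.1.ne_zero

theorem rep_deg {B : k[X]} (hB : B ≠ 0) (T : Finset k[X]) (hT : ∀ P, P ∈ T ↔ P ∈ primes B)
    {μ : ℕ} (ζ : k) (x : Fin μ × (T → Fin μ)) : (rep ζ T x).natDegree ≤ μ * B.natDegree := by
  unfold rep
  refine (natDegree_C_mul_le _ _).trans ((natDegree_prod_le _ _).trans ?_)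
  calc ∑ P : T, (P.1 ^ (x.2 P : ℕ)).natDegree ≤ ∑ P : T, μ * P.1.natDegree :=
        Finset.sum_le_sum fun P _ => natDegree_pow_le.trans
          (Nat.mul_le_mul_right _ (x.2 P).2.le)
    _ = μ * ∑ P : T, P.1.natDegree := by rw [Finset.mul_sum]
    _ = μ * ∑ P ∈ T, P.natDegree := by
        rw [← Finset.sum_coe_sort T fun P => P.natDegree]
    _ ≤ _ := Nat.mul_le_mul_left _ (sum_deg_le hB T hT)

end cls

section count

/-- a function over a covering of Kummer type vanishes at a point with `(q ^ s T) ^ e = 1` -/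
def VanG (k₀ : Type) [Field k₀] {k : Type} [Field k] [Algebra k₀ k] (p q s e μ : ℕ)
    (B : k[X]) {κ : Type} [Fintype κ] (E : k[X]) (b : κ → k[X]) (m : κ → ℕ) : Prop :=
  ∃ (G O : Type) (_ : Group G) (_ : Finite G) (_ : CommRing O) (_ : Algebra k[X] O)
    (_ : MulSemiringAction G O) (_ : IsGaloisGroup G k[X] O) (_ : FaithfulSMul k[X] O) (a : ℕ)
    (w : Fin a → O) (γ : Fin a → k[X]), (∀ i, γ i ≠ 0) ∧
    (∀ i, ∀ P : k[X], Irreducible P → P ∣ γ i → P ∣ B) ∧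
    (∀ i, w i ^ μ = algebraMap k[X] O (γ i)) ∧
    (∀ i, ∀ σ : G, ∃ c : k, σ • w i = algebraMap k[X] O (C c) * w i) ∧
    IsPGroup p (⨅ i, MulAction.stabilizer G (w i) : Subgroup G) ∧
    (∀ 𝔪 : MaximalSpectrum O, vO k 𝔪 E ≠ 0 → 𝔪.asIdeal.inertia G = ⊥) ∧
    ∃ χ : MulChar k₀ ℂ, orderOf χ = q - 1 ∧ ∃ ζ : ℂ, ζ ^ e = 1 ∧ ∃ H : ℂ[X],
      LO O χ E b m = (((1 - C (((q ^ s : ℕ) : ℂ) * ζ) * X) * H : ℂ[X]) : PowerSeries ℂ)

variable {k₀ k : Type} [Field k₀] [Fintype k₀] [Field k] [Fintype k] [Algebra k₀ k]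
  {p f₀ q s r : ℕ} [hp : Fact p.Prime] [CharP k p]

/-- **the twists with a zero over some covering, up to constants, have a fixed vector** -/
theorem sub_of_vanG (hKD : KummerDegreeFam) (hKP : KummerProd) (hKO : KummerOrder) (hq : q = p ^ f₀) (hf₀ : 0 < f₀) (hk₀ : Fintype.card k₀ = q)
    (hs : 0 < s) (hk : Fintype.card k = q ^ s) (h5 : 5 ≤ q) (B : k[X]) (b : Fin (r + 1) → k[X])
    (m : Fin (r + 1) → ℕ) (hm : ∀ i, 0 < m i) (hmq : ∑ i, m i < q - 1)
    (hinv : ∀ i : ℕ, i < ∑ l, m l → ((i : k₀) + 1) ≠ 0) (N e : ℕ) (he : e ∣ q - 1)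
    {μ : ℕ} (hμ : 0 < μ) (hμq : μ ∣ q - 1) {J : Type} [Fintype J] (F : J → k[X])
    (hF : ∀ α : k[X], α ≠ 0 → (∀ P : k[X], Irreducible P → P ∣ α → P ∣ B) →
      ∃ (j : J) (δ : k[X]), F j * δ ^ (q - 1) = α ^ ((q - 1) / μ)) :
    ∃ S : Finset k, S.card ≤ e ∧ (∀ u ∈ S, u ≠ 0) ∧
    {D : k[X] | D.natDegree ≤ N ∧ VanG k₀ p q s e μ B (D * B) b m} ⊆
      ⋃ u ∈ S, ⋃ l ∈ (Finset.univ : Finset J), (fun D => C u * D) '' {D : k[X] | D.natDegree ≤ N ∧
        ∃ w : Fin r → k[X], w ≠ 0 ∧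
        ∀ i, cart q (D * ∑ j, minor (B * F l) b m i j * w j) =
          (w i).map (iterateFrobenius k p f₀)} := by
  classical
  have hq1 : 0 < q - 1 := by omega
  have hnz : NeZero (q - 1) := ⟨hq1.ne'⟩
  have he0 : 0 < e := Nat.pos_of_dvd_of_pos he hq1
  set S₀ : Finset k₀ := (Polynomial.nthRoots e (1 : k₀)).toFinset with hS₀
  have hSc : S₀.card ≤ e := (Multiset.toFinset_card_le _).trans (card_nthRoots e 1)
  have hsurj := FiniteField.norm_surjective k₀ k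
  choose ν hν using hsurj
  have hS₀0 : ∀ a ∈ S₀, a ≠ 0 := by
    intro a ha h
    rw [hS₀, Multiset.mem_toFinset, Polynomial.mem_nthRoots he0, h, zero_pow he0.ne'] at ha
    exact zero_ne_one ha
  have hν0 : ∀ a : k₀, a ≠ 0 → ν a ≠ 0 := by
    intro a ha h
    apply ha
    rw [← hν a, h, Algebra.norm_zero]
  refine ⟨S₀.image ν, Finset.card_image_le.trans hSc, ?_, ?_⟩
  · intro u hu
    obtain ⟨a, ha, rfl⟩ := Finset.mem_image.1 hu
    exact hν0 a (hS₀0 a ha)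
  rintro D ⟨hD, G, O, i1, i2, i3, i4, i5, i6, i7, a, w₀, γ, hγ0, hγ, hw₀, hact, hstab, hun, χ,
    hχ, ζ, hζ, H, hH⟩
  have hFv : ∀ v : Fin a → Fin μ, ∃ (j : J) (δ : k[X]),
      F j * δ ^ (q - 1) = ∏ i, γ i ^ ((v i : ℕ) * ((q - 1) / μ)) := by
    intro v
    obtain ⟨j, δ, h⟩ := hF (∏ i, γ i ^ (v i : ℕ))
      (Finset.prod_ne_zero_iff.2 fun i _ => pow_ne_zero _ (hγ0 i)) (by
        intro P hP hd
        obtain ⟨i, _, h1⟩ := (Prime.dvd_finsetProd_iff hP.prime _).1 hd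
        exact hγ i P hP (hP.prime.dvd_of_dvd_pow h1))
    refine ⟨j, δ, ?_⟩
    rw [h, ← Finset.prod_pow]
    exact Finset.prod_congr rfl fun i _ => (pow_mul _ _ _).symm
  choose cl hcl using hFv
  have hμk : μ ∣ Nat.card k - 1 := by
    rw [Nat.card_eq_fintype_card, hk]
    exact hμq.trans (by simpa using Nat.sub_dvd_pow_sub_pow q 1 s)
  obtain ⟨n₀, g', hG, h, hh⟩ := hKO k O G p μ a hμ hμk w₀ γ hw₀ hγ0 hact hstab
  obtain ⟨g, hg⟩ := IsCyclic.exists_generator (α := k₀ˣ)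
  have hprim := prim_of_order χ hq1 hχ hg
  have hζ0 : ζ ≠ 0 := by
    intro h
    rw [h, zero_pow he0.ne'] at hζ
    exact zero_ne_one hζ
  have hζ' : ζ ^ (q - 1) = 1 := by
    obtain ⟨c, hc⟩ := he
    rw [hc, pow_mul, hζ, one_pow]
  obtain ⟨i, _, hi⟩ := hprim.eq_pow_of_pow_eq_one hζ'
  have hgq : ((g : k₀)) ^ (i * e) = 1 := by
    have h6 : (χ (g : k₀)) ^ (i * e) = 1 := by rw [pow_mul, hi, hζ]
    have h7 := hprim.dvd_of_pow_eq_one _ h6
    obtain ⟨c, hc⟩ := h7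
    rw [hc, pow_mul, ← hk₀, FiniteField.pow_card_sub_one_eq_one _ g.ne_zero, one_pow]
  set a' : k₀ := (g : k₀) ^ i with ha
  have ha0 : a' ≠ 0 := pow_ne_zero _ g.ne_zero
  set u : k := ν a' with hu
  have hu0 : u ≠ 0 := hν0 a' ha0
  have huN : Algebra.norm k₀ u = a' := hν a'
  rw [Set.mem_iUnion₂]
  refine ⟨u, Finset.mem_image.2 ⟨a', ?_, rfl⟩, ?_⟩
  · rw [hS₀, Multiset.mem_toFinset, Polynomial.mem_nthRoots he0, ha, ← pow_mul]
    exact hgq
  have h6 : χ (Algebra.norm k₀ (u⁻¹)) = ζ⁻¹ := by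
    have h7 : χ (Algebra.norm k₀ (u⁻¹)) * χ (Algebra.norm k₀ u) = 1 := by
      rw [← map_mul, ← map_mul, inv_mul_cancel₀ hu0, map_one, map_one]
    rw [huN, ha, map_pow, hi] at h7
    exact eq_inv_of_mul_eq_one_left h7
  have h8 : ∀ H : ℂ[X], PowerSeries.rescale ζ⁻¹ (H : PowerSeries ℂ) =
      ((H.comp (C ζ⁻¹ * X) : ℂ[X]) : PowerSeries ℂ) := by
    intro H
    ext n
    rw [PowerSeries.coeff_rescale, Polynomial.coeff_coe, Polynomial.coeff_coe,
      comp_C_mul_X_coeff, mul_comm]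
  have h9 : LO O χ (C (u⁻¹) * D * B) b m =
      (((1 - C (((q ^ s : ℕ)) : ℂ) * X) * H.comp (C ζ⁻¹ * X) : ℂ[X]) : PowerSeries ℂ) := by
    rw [mul_assoc, LO_C_mul G, hH, h6, h8]
    congr 1
    rw [mul_comp, sub_comp, one_comp, mul_comp, C_comp, X_comp, C_mul]
    congr 2
    rw [mul_assoc, ← mul_assoc (C ζ), ← C_mul, mul_inv_cancel₀ hζ0, C_1, one_mul]
  obtain ⟨l, w, hw0, hw⟩ := fixed_of_vanishF (O := O) G hKD hKP hq hf₀ hk₀ hs hk h5 hμ hμq hG hh w₀
    γ hw₀ hact hstab χ hχ (C (u⁻¹) * D * B) (fun i P h1 h2 => (hγ i P h1 h2).mul_left _)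
    (fun v => F (cl v)) hcl b hm
    hmq hinv 0 (by
      intro 𝔪 h𝔪
      apply hun
      intro h0
      apply h𝔪
      rw [mul_assoc, map_mul, h0, mul_zero]) _ h9
  rw [Set.mem_iUnion₂]
  refine ⟨cl l, Finset.mem_univ _, C (u⁻¹) * D, ⟨(natDegree_C_mul_le _ _).trans hD, ?_⟩, ?_⟩
  · refine minor_of_fixed (by omega) (B * F (cl l)) b m (C (u⁻¹) * D) w hw0 ?_
    rw [← mul_assoc]
    exact hw
  · show C u * (C (u⁻¹) * D) = D
    rw [← mul_assoc, ← C_mul, mul_inv_cancel₀ hu0, C_1, one_mul]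

/-- **the number of the twists with a zero over some covering** -/
theorem countG_of_bound (hKD : KummerDegreeFam) (hKP : KummerProd) (hKO : KummerOrder) (hq : q = p ^ f₀) (hf₀ : 0 < f₀) (hk₀ : Fintype.card k₀ = q)
    (hs : 0 < s) (hk : Fintype.card k = q ^ s) (h5 : 5 ≤ q) (B : k[X]) (b : Fin (r + 1) → k[X])
    (m : Fin (r + 1) → ℕ) (hm : ∀ i, 0 < m i) (hmq : ∑ i, m i < q - 1)
    (hinv : ∀ i : ℕ, i < ∑ l, m l → ((i : k₀) + 1) ≠ 0) (N e K : ℕ) (he : e ∣ q - 1)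
    {μ : ℕ} (hμ : 0 < μ) (hμq : μ ∣ q - 1) {J : Type} [Fintype J] (F : J → k[X])
    (hF : ∀ α : k[X], α ≠ 0 → (∀ P : k[X], Irreducible P → P ∣ α → P ∣ B) →
      ∃ (j : J) (δ : k[X]), F j * δ ^ (q - 1) = α ^ ((q - 1) / μ))
    (hK : ∀ l, Nat.card {D : k[X] // D.natDegree ≤ N ∧ ∃ w : Fin r → k[X], w ≠ 0 ∧
      ∀ i, cart q (D * ∑ j, minor (B * F l) b m i j * w j) =
        (w i).map (iterateFrobenius k p f₀)} ≤ K) :
    {D : k[X] | D.natDegree ≤ N ∧ VanG k₀ p q s e μ B (D * B) b m}.ncard ≤ e * (Fintype.card J * K) := by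
  classical
  obtain ⟨S, hSc, _, hsub⟩ := sub_of_vanG (k₀ := k₀) hKD hKP hKO hq hf₀ hk₀ hs hk h5 B b m hm hmq hinv N e he
    hμ hμq F hF
  set V := fun l : J => {D : k[X] | D.natDegree ≤ N ∧ ∃ w : Fin r → k[X], w ≠ 0 ∧
    ∀ i, cart q (D * ∑ j, minor (B * F l) b m i j * w j) =
      (w i).map (iterateFrobenius k p f₀)} with hV
  have hVf : ∀ l, (V l).Finite := fun l => (finite_natDegree_le N).subset fun D hD => hD.1
  have hVc : ∀ l, (V l).ncard ≤ K := fun l =>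
    (le_of_eq (Nat.card_coe_set_eq _).symm).trans (hK l)
  have hfin : (⋃ u ∈ S, ⋃ l ∈ (Finset.univ : Finset J), (fun D => C u * D) '' V l).Finite :=
    S.finite_toSet.biUnion fun u _ => (Finset.univ : Finset J).finite_toSet.biUnion fun l _ =>
      (hVf l).image _
  refine (Set.ncard_le_ncard hsub hfin).trans ?_
  have h6 : (⋃ u ∈ S, ⋃ l ∈ (Finset.univ : Finset J), (fun D => C u * D) '' V l).ncard ≤
      ∑ u ∈ S, ∑ l : J, (V l).ncard := by
    refine (Finset.set_ncard_biUnion_le S _).trans (Finset.sum_le_sum fun u _ => ?_)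
    refine (Finset.set_ncard_biUnion_le (Finset.univ : Finset J) _).trans
      (Finset.sum_le_sum fun l _ => ?_)
    exact Set.ncard_image_le (hVf l)
  refine h6.trans ?_
  have h7 : ∑ l : J, (V l).ncard ≤ Fintype.card J * K := by
    refine (Finset.sum_le_sum fun l _ => hVc l).trans ?_
    rw [Finset.sum_const, smul_eq_mul, Finset.card_univ]
  rw [Finset.sum_const, smul_eq_mul]
  exact Nat.mul_le_mul hSc h7

end count

section lo

variable {k₀ k : Type} [Field k₀] [Fintype k₀] [Field k] [Fintype k] [Algebra k₀ k]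

/-- some function over a covering of Kummer type vanishes -/
def VanGX {k : Type} [Field k] (p n e μ : ℕ) (B : k[X]) {κ : Type} [Fintype κ] (E : k[X])
    (b : κ → k[X]) (m : κ → ℕ) : Prop :=
  ∃ (G O : Type) (_ : Group G) (_ : Finite G) (_ : CommRing O) (_ : Algebra k[X] O)
    (_ : MulSemiringAction G O) (_ : IsGaloisGroup G k[X] O) (_ : FaithfulSMul k[X] O)
    (a : ℕ) (w : Fin a → O) (γ : Fin a → k[X]), (∀ i, γ i ≠ 0) ∧
    (∀ i, ∀ P : k[X], Irreducible P → P ∣ γ i → P ∣ B) ∧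
    (∀ i, w i ^ μ = algebraMap k[X] O (γ i)) ∧
    (∀ i, ∀ σ : G, ∃ c : k, σ • w i = algebraMap k[X] O (C c) * w i) ∧
    IsPGroup p (⨅ i, MulAction.stabilizer G (w i) : Subgroup G) ∧
    (∀ 𝔪 : MaximalSpectrum O, vO k 𝔪 E ≠ 0 → 𝔪.asIdeal.inertia G = ⊥) ∧
    ∃ χ : MulChar k ℂ, orderOf χ = n ∧ ∃ ζ : ℂ, ζ ^ e = 1 ∧ ∃ H : ℂ[X],
      LO O χ E b m = (((1 - C ((Nat.card k : ℂ) * ζ) * X) * H : ℂ[X]) : PowerSeries ℂ)

theorem vanG_of_vanGX {p q s e μ : ℕ} {B : k[X]} {κ : Type} [Fintype κ]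
    (hk₀ : Fintype.card k₀ = q) (hk : Fintype.card k = q ^ s)
    {E : k[X]} {b : κ → k[X]} {m : κ → ℕ} (h : VanGX p (q - 1) e μ B E b m) :
    VanG k₀ p q s e μ B E b m := by
  obtain ⟨G, O, i1, i2, i3, i4, i5, i6, i7, a, w, γ, hγ0, hγ, hw, hact, hstab, hun, χ', hχ', ζ,
    hζ, H, hH⟩ := h
  obtain ⟨χ, hχ, hcomp⟩ := exists_char hk₀ χ' hχ'
  refine ⟨G, O, i1, i2, i3, i4, i5, i6, i7, a, w, γ, hγ0, hγ, hw, hact, hstab, hun, χ, hχ, ζ, hζ, H, ?_⟩
  rw [← LO_norm G hcomp, hH, Nat.card_eq_fintype_card, hk]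

end lo

section bound

variable {k : Type} [Field k] [Fintype k] {r q : ℕ}

/-- **the number of the twists with a zero over some covering, simple collisions** -/
theorem countGX (hKD : KummerDegreeFam) (hKP : KummerProd) (hKO : KummerOrder) {p f₀ s : ℕ} [hp : Fact p.Prime] [CharP k p] (hq : q = p ^ f₀) (hf₀ : 0 < f₀)
    (hs : 0 < s) (hk : Fintype.card k = q ^ s) (B : k[X]) (hB : B ≠ 0)
    (b : ℕ) (hb : ∀ P : k[X], Irreducible P → ¬ P ^ (b + 1) ∣ B) {β : Fin (r + 1) → k[X]}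
    {m : Fin (r + 1) → ℕ} {d : ℕ} (h : Simple β d) (hm : ∀ i, 0 < m i)
    (hmp : ∑ l, m l < p) (hrn : r * ∑ l, m l ≤ q - 1) {μ κ : ℕ} (hμ : 0 < μ)
    (hμκ : μ * κ = q - 1)
    (hnb : ∑ l, m l + b + 3 * r + 3 ≤ κ) (hrq : 4 * (r + 1) ^ 2 ≤ q) (f ρ V N e : ℕ)
    (hf : f = B.natDegree + d * ∑ l, m l) (he : e ∣ q - 1) (hρ : 2 * r + 1 ≤ ρ) (hρκ : ρ + 1 ≤ κ)
    (hV : 8 * μ * q * (r + 1) ^ 2 * (f + 1) ≤ V) (hN : N + f = κ * V + ρ) :
    q * {D : k[X] | D.natDegree ≤ N ∧ VanGX p (q - 1) e μ B (D * B) β m}.ncard ≤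
      2 * e * μ ^ ((primes B).ncard + 1) * Nat.card k ^ (N + 1) := by
  classical
  obtain ⟨φ⟩ := exists_const k p f₀ s hf₀ (by rw [hk, hq])
  let k₀ := GaloisField p f₀
  let _ : Algebra k₀ k := φ.toAlgebra
  have hfin : Finite k₀ := Nat.finite_of_card_ne_zero (by
    rw [GaloisField.card p f₀ hf₀.ne']
    exact pow_ne_zero _ hp.out.ne_zero)
  let _ : Fintype k₀ := Fintype.ofFinite k₀
  have hk₀ : Fintype.card k₀ = q := by
    rw [← Nat.card_eq_fintype_card, GaloisField.card p f₀ hf₀.ne', hq]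
  have hcp : CharP k₀ p := φ.charP φ.injective p
  have hinv : ∀ i : ℕ, i < ∑ l, m l → ((i : k₀) + 1) ≠ 0 := by
    intro i hi h
    have h1 : ((i + 1 : ℕ) : k₀) = 0 := by rw [Nat.cast_succ, h]
    rw [CharP.cast_eq_zero_iff k₀ p] at h1
    have h2 := Nat.le_of_dvd (Nat.succ_pos i) h1
    omega
  have hinv' : ∀ i : ℕ, i < ∑ l, m l → ((i : k) + 1) ≠ 0 := by
    intro i hi h
    have h1 : ((i + 1 : ℕ) : k) = 0 := by rw [Nat.cast_succ, h]
    rw [CharP.cast_eq_zero_iff k p] at h1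
    have h2 := Nat.le_of_dvd (Nat.succ_pos i) h1
    omega
  have hκμ : κ ≤ q - 1 := by
    rw [← hμκ]
    exact Nat.le_mul_of_pos_left κ hμ
  have hμq : μ ∣ q - 1 := ⟨κ, hμκ.symm⟩
  have hκ : (q - 1) / μ = κ := by rw [← hμκ, Nat.mul_div_cancel_left _ hμ]
  -- the parts free of powers
  obtain ⟨ζ', hζ'⟩ := IsCyclic.exists_generator (α := kˣ)
  set ζ : k := (ζ' : k) with hζdef
  have hζ0 : ζ ≠ 0 := ζ'.ne_zero
  have hζ : ∀ c : k, c ≠ 0 → ∃ n : ℕ, c = ζ ^ n := by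
    intro c hc
    obtain ⟨n, hn⟩ := (mem_powers_iff_mem_zpowers).2 (hζ' (Units.mk0 c hc))
    dsimp only at hn
    refine ⟨n, ?_⟩
    rw [hζdef, ← Units.val_pow_eq_pow_val, hn, Units.val_mk0]
  have hTfin := primes_finite hB
  set T : Finset k[X] := hTfin.toFinset with hTdef
  have hT : ∀ P, P ∈ T ↔ P ∈ primes B := fun P => hTfin.mem_toFinset
  have hTc : T.card = (primes B).ncard := (Set.ncard_eq_toFinset_card _ hTfin).symm
  have hfree := fun v : Fin μ × (T → Fin μ) => exists_free hμ (rep ζ T v) (rep_ne_zero B T hT hζ0 v)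
  choose α δ hαδ hα using hfree
  have hα0 : ∀ j, α j ≠ 0 := by
    intro j h0
    have h1 := hαδ j
    rw [h0, zero_mul] at h1
    exact rep_ne_zero B T hT hζ0 j h1.symm
  have hδ0 : ∀ j, δ j ≠ 0 := by
    intro j h0
    have h1 := hαδ j
    rw [h0, zero_pow hμ.ne', mul_zero] at h1
    exact rep_ne_zero B T hT hζ0 j h1.symm
  set F : (Fin μ × (T → Fin μ)) → k[X] := fun j => α j ^ κ with hFdef
  have hF : ∀ η : k[X], η ≠ 0 → (∀ P : k[X], Irreducible P → P ∣ η → P ∣ B) →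
      ∃ (j : Fin μ × (T → Fin μ)) (ε : k[X]), F j * ε ^ (q - 1) = η ^ ((q - 1) / μ) := by
    intro η hη hηB
    obtain ⟨j, ε, hj⟩ := exists_class B T hT hμ hζ η hη hηB
    refine ⟨j, δ j * ε, ?_⟩
    rw [hFdef, hκ]
    show α j ^ κ * (δ j * ε) ^ (q - 1) = _
    rw [← hj, ← hαδ j, ← hμκ, pow_mul, ← mul_pow]
    congr 1
    ring
  have hdα : ∀ j, κ * (α j).natDegree ≤ (q - 1) * B.natDegree := by
    intro j
    have h1 : (α j).natDegree ≤ μ * B.natDegree := by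
      have h2 := congrArg natDegree (hαδ j)
      rw [natDegree_mul (hα0 j) (pow_ne_zero _ (hδ0 j))] at h2
      have h3 := rep_deg hB T hT ζ j
      omega
    calc κ * (α j).natDegree ≤ κ * (μ * B.natDegree) := Nat.mul_le_mul_left _ h1
      _ = (q - 1) * B.natDegree := by rw [← hμκ]; ring
  -- the bound for each of them
  have h6 : ∀ j, q * Nat.card {D : k[X] // D.natDegree ≤ N ∧ ∃ w : Fin r → k[X], w ≠ 0 ∧
      ∀ i, cart q (D * ∑ l, minor (B * F j) β m i l * w l) =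
        (w i).map (iterateFrobenius k p f₀)} ≤ 2 * Nat.card k ^ (N + 1) := by
    intro j
    have hFj : F j ≠ 0 := pow_ne_zero _ (hα0 j)
    set a' := (α j).natDegree with ha
    set V' := (V + a') / μ with hV'
    set i := (V + a') % μ with hi
    have hVi : V + a' = μ * V' + i := (Nat.div_add_mod (V + a') μ).symm
    have hiμ : i < μ := Nat.mod_lt _ hμ
    have hμ1 : (μ - 1) * κ + κ = q - 1 := by
      rw [← hμκ, ← Nat.succ_mul]
      congr 1
      omega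
    have hiκ : i * κ ≤ (μ - 1) * κ := Nat.mul_le_mul_right _ (by omega)
    refine simple_boundS hq hf₀ hs hk (B * F j) (mul_ne_zero hB hFj) (b + (μ - 1) * κ) ?_ h hm
      hinv' hrn (by omega) hrq (f + κ * a') (i * κ + ρ) V' N ?_ (by omega) (by omega) ?_ ?_
    · intro P hP
      have h1 : ¬ P ^ (μ - 1 + 1) ∣ α j := by
        rw [Nat.sub_add_cancel hμ]
        exact hα j P hP
      have h2 := not_pow_dvd_pow hP h1 κ
      have h3 := not_pow_dvd_mul hP.prime (hb P hP) h2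
      rwa [mul_comm κ] at h3
    · rw [natDegree_mul hB hFj, hFdef]
      show f + κ * a' = B.natDegree + (α j ^ κ).natDegree + d * ∑ l, m l
      rw [natDegree_pow, hf]
      ring
    · rw [hV', Nat.le_div_iff_mul_le hμ, mul_comm]
      refine le_trans ?_ (hV.trans (Nat.le_add_right V a'))
      have h1 := hdα j
      rw [← ha] at h1
      have h2 : f + κ * a' + 1 ≤ q * (f + 1) := by
        have h3 : B.natDegree ≤ f := by omega
        have h4 : (q - 1) * B.natDegree ≤ (q - 1) * f := Nat.mul_le_mul_left _ h3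
        have h5 : q * (f + 1) = (q - 1) * f + f + q := by
          obtain ⟨q', hq'⟩ : ∃ q', q = q' + 1 := ⟨q - 1, by omega⟩
          rw [hq', Nat.add_sub_cancel]
          ring
        omega
      calc μ * (8 * (r + 1) ^ 2 * (f + κ * a' + 1)) ≤ μ * (8 * (r + 1) ^ 2 * (q * (f + 1))) :=
            Nat.mul_le_mul_left _ (Nat.mul_le_mul_left _ h2)
        _ = _ := by ring
    · have h1 : κ * (V + a') = (q - 1) * V' + i * κ := by
        rw [hVi, ← hμκ]
        ring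
      rw [mul_add] at h1
      omega
  have hn0 : 0 < ∑ i, m i := Finset.sum_pos (fun i _ => hm i) ⟨0, Finset.mem_univ _⟩
  have hq0 : 0 < q := by omega
  have hcard : Fintype.card (Fin μ × (T → Fin μ)) = μ ^ ((primes B).ncard + 1) := by
    rw [Fintype.card_prod, Fintype.card_fun, Fintype.card_fin, Fintype.card_coe, hTc, pow_succ']
  have h7 := countG_of_bound (k₀ := k₀) (k := k) (p := p) (s := s) hKD hKP hKO hq hf₀ hk₀ hs hk (by omega) B β m
    hm (by omega) hinv N e (2 * Nat.card k ^ (N + 1) / q) he hμ hμq F hF (fun j => by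
      rw [Nat.le_div_iff_mul_le hq0, mul_comm]
      exact h6 j)
  rw [hcard] at h7
  have h8 : {D : k[X] | D.natDegree ≤ N ∧ VanGX p (q - 1) e μ B (D * B) β m}.ncard ≤
      {D : k[X] | D.natDegree ≤ N ∧ VanG k₀ p q s e μ B (D * B) β m}.ncard :=
    Set.ncard_le_ncard (fun D hD => ⟨hD.1, vanG_of_vanGX hk₀ hk hD.2⟩)
      ((finite_natDegree_le N).subset fun D hD => hD.1)
  calc q * {D : k[X] | D.natDegree ≤ N ∧ VanGX p (q - 1) e μ B (D * B) β m}.ncard ≤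
      q * (e * (μ ^ ((primes B).ncard + 1) * (2 * Nat.card k ^ (N + 1) / q))) := Nat.mul_le_mul_left q (h8.trans h7)
    _ = e * μ ^ ((primes B).ncard + 1) * (q * (2 * Nat.card k ^ (N + 1) / q)) := by ring
    _ ≤ e * μ ^ ((primes B).ncard + 1) * (2 * Nat.card k ^ (N + 1)) := Nat.mul_le_mul_left _ (Nat.mul_div_le _ _)
    _ = _ := by ring

end bound

end Pool.Agent.Y709.Kum
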