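import Pool.Agent.Y709.Kum.CountG
import Pool.Agent.Y363.Kum.DegreeFam
import Pool.Agent.Y427.Kum.Order
import Pool.Agent.Y468.Kum.Prod

/-!
The number of the twists with a zero over some covering whose group is an extension of an abelian group
of exponent dividing `μ` by a `p`-group, for pencils whose factor `B` is prime to the collisions.
-/

set_option autoImplicit false
set_option linter.unusedSectionVars false

open Polynomial Module

namespace Pool.Agent.Y709.Kum

open Pool.Agent.W313.Hyp Pool.Agent.W343.BSD Pool.Agent.Y709 Pool.Agent.Y709.Gen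
open Pool.Agent.Y709.Lay Pool.Agent.Y709.Irr Pool.Agent.Y709.IrrS

section bound

variable {k : Type} [Field k] [Fintype k] {r q : ℕ}

/-- the number of the twists with a fixed vector -/
theorem simple_boundC {p a s : ℕ} [hp : Fact p.Prime] [CharP k p] (hq : q = p ^ a) (ha : 0 < a)
    (hs : 0 < s) (hk : Fintype.card k = q ^ s) (B : k[X]) (hB : B ≠ 0)
    (c : ℕ) {β : Fin (r + 1) → k[X]}
    {m : Fin (r + 1) → ℕ} {d : ℕ} (h : Simple β d) (hm : ∀ i, 0 < m i)
    (hinv : ∀ i : ℕ, i < ∑ l, m l → ((i : k) + 1) ≠ 0) (hrn : r * ∑ l, m l ≤ q - 1)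
    (hc : ∀ P : k[X], Irreducible P → ¬ P ^ (c + 1) ∣ B * (minor 1 β m).det)
    (hcn : ∑ l, m l ≤ c) (hnb : c + 3 * r + 4 ≤ q) (hrq : 4 * (r + 1) ^ 2 ≤ q) (f ρ V N : ℕ)
    (hf : f = B.natDegree + d * ∑ l, m l) (hρ : 2 * r + 1 ≤ ρ) (hρq : ρ + 2 ≤ q)
    (hV : 8 * (r + 1) ^ 2 * (f + 1) ≤ V) (hN : N + f = (q - 1) * V + ρ) :
    q * Nat.card {D : k[X] // D.natDegree ≤ N ∧ ∃ w : Fin r → k[X], w ≠ 0 ∧
      ∀ i, cart q (D * ∑ j, minor B β m i j * w j) = (w i).map (iterateFrobenius k p a)} ≤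
      2 * Nat.card k ^ (N + 1) := by
  have hσ : ∀ x, iterateFrobenius k p a x = x ^ q := fun x => by rw [iterateFrobenius_def, hq]
  have hcount := Pool.Agent.Y515.cntDetS k q s hk p a hq hs (iterateFrobenius k p a) hσ r
  have hmle : ∀ i, m i < q := by
    intro i
    have : m i ≤ ∑ i, m i := Finset.single_le_sum (f := m) (fun _ _ => Nat.zero_le _)
      (Finset.mem_univ i)
    omega
  have hinj : Function.Injective β := by
    intro i j hij
    by_contra hne
    exact h.ne hne (sub_eq_zero.2 hij)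
  have hdet := det_minor (k := k) hq ha (one_ne_zero (α := k[X])) hinj hm hmle hinv
  have hmq : ∑ i, m i < q - 1 := by omega
  have hirr : IrrXS q (iterateFrobenius k p a) (minor B β m) := by
    rw [minor_eq]
    exact irr_smulS (irr_minorS hq ha hσ hm hinv h.pos h.deg h.degD h.sq h.col hdet hrn) hB
  have hdeg1 : ∀ i j, (minor 1 β m i j).natDegree ≤ d * ∑ l, m l := by
    intro i j
    unfold minor
    rw [Matrix.of_apply, one_mul]
    exact natDegree_phi h.deg hm _ _ _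
  refine hcount (minor B β m) (minor 1 β m).adjugate (B * (minor 1 β m).det) f
    c ρ V N ?_ ?_ (mul_ne_zero hB hdet) ?_ ?_ hirr hnb hrq hρ hρq hV hN
  · intro i j
    rw [minor_eq, Matrix.of_apply, hf]
    exact natDegree_mul_le.trans (Nat.add_le_add_left (hdeg1 i j) _)
  · have h1 : (Matrix.of fun i j => (minor B β m i j).coeff f) =
        B.leadingCoeff • (Matrix.of fun i j => (minor 1 β m i j).coeff (d * ∑ l, m l)) := by
      refine Matrix.ext fun i j => ?_
      rw [Matrix.of_apply, Matrix.smul_apply, Matrix.of_apply, smul_eq_mul, minor_eq,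
        Matrix.of_apply, hf, coeff_mul_add_eq_of_natDegree_le le_rfl (hdeg1 i j)]
      rfl
    rw [h1, Matrix.det_smul]
    exact mul_ne_zero (pow_ne_zero _ (leadingCoeff_ne_zero.2 hB)) (lead_det h hm hinv hdet)
  · rw [minor_eq]
    have h1 : (Matrix.of fun i j => B * minor 1 β m i j) = B • minor 1 β m := rfl
    rw [h1, Matrix.smul_mul, Matrix.mul_adjugate, smul_smul]
  · exact fun P hP => hc P hP

/-- the multiplicities for a factor that is prime to the collisions -/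
theorem mult_coprime {B : k[X]} {β : Fin (r + 1) → k[X]} {m : Fin (r + 1) → ℕ} {d : ℕ}
    (h : Simple β d) (hm : ∀ i, 0 < m i) (hinv : ∀ i : ℕ, i < ∑ l, m l → ((i : k) + 1) ≠ 0)
    (hdet : (minor 1 β m).det ≠ 0) (b : ℕ)
    (hb : ∀ P : k[X], Irreducible P → ¬ P ^ (b + 1) ∣ B)
    (hcop : ∀ P : k[X], Irreducible P → P ∣ B → ∀ i j, i ≠ j → ¬ P ∣ β i - β j) (c : ℕ)
    (hbc : b ≤ c) (hnc : ∑ l, m l ≤ c) {P : k[X]} (hP : Irreducible P) :
    ¬ P ^ (c + 1) ∣ B * (minor 1 β m).det := by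
  intro hd
  by_cases hPB : P ∣ B
  · have h1 : ¬ P ∣ (minor 1 β m).det := by
      obtain ⟨c', hc', hde⟩ := det_eq h hm hinv hdet
      rw [hde]
      intro h2
      have hcu : IsUnit (C c' : k[X]) := (isUnit_C).2 (isUnit_iff_ne_zero.2 hc')
      have hPc : ¬ P ∣ C c' := fun h' => hP.not_isUnit (isUnit_of_dvd_unit h' hcu)
      have h3 := (hP.prime.dvd_or_dvd h2).resolve_left hPc
      obtain ⟨x, hx, hPx⟩ := (hP.prime.dvd_finsetProd_iff _).1 h3
      exact hcop P hP hPB x.1 x.2 (mem_prs.1 hx).ne (hP.prime.dvd_of_dvd_pow hPx)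
    have h4 := hP.prime.pow_dvd_of_dvd_mul_right _ h1 hd
    exact hb P hP ((pow_dvd_pow P (by omega)).trans h4)
  · have h4 := hP.prime.pow_dvd_of_dvd_mul_left _ hPB hd
    exact mult_det h hm hinv hdet hP ((pow_dvd_pow P (by omega)).trans h4)

theorem rep_dvd (B : k[X]) (T : Finset k[X]) (hT : ∀ P, P ∈ T ↔ P ∈ primes B) {μ : ℕ}
    {ζ : k} (hζ0 : ζ ≠ 0) (x : Fin μ × (T → Fin μ)) {P : k[X]} (hP : Irreducible P)
    (h : P ∣ rep ζ T x) : P ∣ B := by
  unfold rep at h
  have hcu : IsUnit (C (ζ ^ (x.1 : ℕ)) : k[X]) :=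
    (isUnit_C).2 (isUnit_iff_ne_zero.2 (pow_ne_zero _ hζ0))
  have hPc : ¬ P ∣ C (ζ ^ (x.1 : ℕ)) := fun h' => hP.not_isUnit (isUnit_of_dvd_unit h' hcu)
  have h3 := (hP.prime.dvd_or_dvd h).resolve_left hPc
  obtain ⟨Q, _, hPQ⟩ := (hP.prime.dvd_finsetProd_iff _).1 h3
  exact (hP.prime.dvd_of_dvd_pow hPQ).trans ((hT Q.1).1 Q.2).2.2

/-- **the number of the twists with a zero over some covering, simple collisions** -/
theorem countHX {p f₀ s : ℕ} [hp : Fact p.Prime] [CharP k p] (hq : q = p ^ f₀) (hf₀ : 0 < f₀)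
    (hs : 0 < s) (hk : Fintype.card k = q ^ s) (B : k[X]) (hB : B ≠ 0)
    (b : ℕ) (hb : ∀ P : k[X], Irreducible P → ¬ P ^ (b + 1) ∣ B) {β : Fin (r + 1) → k[X]}
    {m : Fin (r + 1) → ℕ} {d : ℕ} (h : Simple β d) (hm : ∀ i, 0 < m i)
    (hmp : ∑ l, m l < p) (hrn : r * ∑ l, m l ≤ q - 1) {μ κ : ℕ} (hμ : 0 < μ)
    (hμκ : μ * κ = q - 1)
    (hcop : ∀ P : k[X], Irreducible P → P ∣ B → ∀ i j, i ≠ j → ¬ P ∣ β i - β j)
    (hn4 : ∑ l, m l + 3 * r + 4 ≤ q) (hnb : b + 3 * r + 3 ≤ κ) (hrq : 4 * (r + 1) ^ 2 ≤ q) (f ρ V N e : ℕ)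
    (hf : f = B.natDegree + d * ∑ l, m l) (he : e ∣ q - 1) (hρ : 2 * r + 1 ≤ ρ) (hρκ : ρ + 1 ≤ κ)
    (hV : 8 * μ * q * (r + 1) ^ 2 * (f + 1) ≤ V) (hN : N + f = κ * V + ρ) :
    q * {D : k[X] | D.natDegree ≤ N ∧ VanGX p (q - 1) e μ B (D * B) β m}.ncard ≤
      2 * e * μ ^ ((primes B).ncard + 1) * Nat.card k ^ (N + 1) := by
  classical
  obtain ⟨φ⟩ := exists_const k p f₀ s hf₀ (by rw [hk, hq])
  let k₀ := GaloisField p f₀
  let _ : Algebra k₀ k := φ.toAlgebra
  have hfin : Finite k₀ := Nat.finite_of_card_ne_zero (by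
    rw [GaloisField.card p f₀ hf₀.ne']
    exact pow_ne_zero _ hp.out.ne_zero)
  let _ : Fintype k₀ := Fintype.ofFinite k₀
  have hk₀ : Fintype.card k₀ = q := by
    rw [← Nat.card_eq_fintype_card, GaloisField.card p f₀ hf₀.ne', hq]
  have hcp : CharP k₀ p := φ.charP φ.injective p
  have hinv : ∀ i : ℕ, i < ∑ l, m l → ((i : k₀) + 1) ≠ 0 := by
    intro i hi h
    have h1 : ((i + 1 : ℕ) : k₀) = 0 := by rw [Nat.cast_succ, h]
    rw [CharP.cast_eq_zero_iff k₀ p] at h1
    have h2 := Nat.le_of_dvd (Nat.succ_pos i) h1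
    omega
  have hinv' : ∀ i : ℕ, i < ∑ l, m l → ((i : k) + 1) ≠ 0 := by
    intro i hi h
    have h1 : ((i + 1 : ℕ) : k) = 0 := by rw [Nat.cast_succ, h]
    rw [CharP.cast_eq_zero_iff k p] at h1
    have h2 := Nat.le_of_dvd (Nat.succ_pos i) h1
    omega
  have hκμ : κ ≤ q - 1 := by
    rw [← hμκ]
    exact Nat.le_mul_of_pos_left κ hμ
  have hμq : μ ∣ q - 1 := ⟨κ, hμκ.symm⟩
  have hκ : (q - 1) / μ = κ := by rw [← hμκ, Nat.mul_div_cancel_left _ hμ]
  -- the parts free of powers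
  obtain ⟨ζ', hζ'⟩ := IsCyclic.exists_generator (α := kˣ)
  set ζ : k := (ζ' : k) with hζdef
  have hζ0 : ζ ≠ 0 := ζ'.ne_zero
  have hζ : ∀ c : k, c ≠ 0 → ∃ n : ℕ, c = ζ ^ n := by
    intro c hc
    obtain ⟨n, hn⟩ := (mem_powers_iff_mem_zpowers).2 (hζ' (Units.mk0 c hc))
    dsimp only at hn
    refine ⟨n, ?_⟩
    rw [hζdef, ← Units.val_pow_eq_pow_val, hn, Units.val_mk0]
  have hTfin := primes_finite hB
  set T : Finset k[X] := hTfin.toFinset with hTdef
  have hT : ∀ P, P ∈ T ↔ P ∈ primes B := fun P => hTfin.mem_toFinset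
  have hTc : T.card = (primes B).ncard := (Set.ncard_eq_toFinset_card _ hTfin).symm
  have hfree := fun v : Fin μ × (T → Fin μ) => exists_free hμ (rep ζ T v) (rep_ne_zero B T hT hζ0 v)
  choose α δ hαδ hα using hfree
  have hα0 : ∀ j, α j ≠ 0 := by
    intro j h0
    have h1 := hαδ j
    rw [h0, zero_mul] at h1
    exact rep_ne_zero B T hT hζ0 j h1.symm
  have hδ0 : ∀ j, δ j ≠ 0 := by
    intro j h0
    have h1 := hαδ j
    rw [h0, zero_pow hμ.ne', mul_zero] at h1
    exact rep_ne_zero B T hT hζ0 j h1.symm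
  set F : (Fin μ × (T → Fin μ)) → k[X] := fun j => α j ^ κ with hFdef
  have hF : ∀ η : k[X], η ≠ 0 → (∀ P : k[X], Irreducible P → P ∣ η → P ∣ B) →
      ∃ (j : Fin μ × (T → Fin μ)) (ε : k[X]), F j * ε ^ (q - 1) = η ^ ((q - 1) / μ) := by
    intro η hη hηB
    obtain ⟨j, ε, hj⟩ := exists_class B T hT hμ hζ η hη hηB
    refine ⟨j, δ j * ε, ?_⟩
    rw [hFdef, hκ]
    show α j ^ κ * (δ j * ε) ^ (q - 1) = _
    rw [← hj, ← hαδ j, ← hμκ, pow_mul, ← mul_pow]
    congr 1
    ring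
  have hdα : ∀ j, κ * (α j).natDegree ≤ (q - 1) * B.natDegree := by
    intro j
    have h1 : (α j).natDegree ≤ μ * B.natDegree := by
      have h2 := congrArg natDegree (hαδ j)
      rw [natDegree_mul (hα0 j) (pow_ne_zero _ (hδ0 j))] at h2
      have h3 := rep_deg hB T hT ζ j
      omega
    calc κ * (α j).natDegree ≤ κ * (μ * B.natDegree) := Nat.mul_le_mul_left _ h1
      _ = (q - 1) * B.natDegree := by rw [← hμκ]; ring
  -- the bound for each of them
  have h6 : ∀ j, q * Nat.card {D : k[X] // D.natDegree ≤ N ∧ ∃ w : Fin r → k[X], w ≠ 0 ∧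
      ∀ i, cart q (D * ∑ l, minor (B * F j) β m i l * w l) =
        (w i).map (iterateFrobenius k p f₀)} ≤ 2 * Nat.card k ^ (N + 1) := by
    intro j
    have hFj : F j ≠ 0 := pow_ne_zero _ (hα0 j)
    set a' := (α j).natDegree with ha
    set V' := (V + a') / μ with hV'
    set i := (V + a') % μ with hi
    have hVi : V + a' = μ * V' + i := (Nat.div_add_mod (V + a') μ).symm
    have hiμ : i < μ := Nat.mod_lt _ hμ
    have hμ1 : (μ - 1) * κ + κ = q - 1 := by
      rw [← hμκ, ← Nat.succ_mul]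
      congr 1
      omega
    have hiκ : i * κ ≤ (μ - 1) * κ := Nat.mul_le_mul_right _ (by omega)
    have hmle : ∀ i, m i < q := by
      intro i
      have : m i ≤ ∑ i, m i := Finset.single_le_sum (f := m) (fun _ _ => Nat.zero_le _)
        (Finset.mem_univ i)
      omega
    have hinj : Function.Injective β := by
      intro i j hij
      by_contra hne
      exact h.ne hne (sub_eq_zero.2 hij)
    have hdet := det_minor (k := k) hq hf₀ (one_ne_zero (α := k[X])) hinj hm hmle hinv'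
    have hFdvd : ∀ P : k[X], Irreducible P → P ∣ B * F j → P ∣ B := by
      intro P hP hd
      rcases hP.prime.dvd_or_dvd hd with h1 | h1
      · exact h1
      · have h2 : P ∣ α j := hP.prime.dvd_of_dvd_pow h1
        have h3 : P ∣ rep ζ T j := by
          rw [← hαδ j]
          exact h2.mul_right _
        exact rep_dvd B T hT hζ0 j hP h3
    refine simple_boundC hq hf₀ hs hk (B * F j) (mul_ne_zero hB hFj)
      (max (∑ l, m l) (b + (μ - 1) * κ)) h hm hinv' hrn ?_ (le_max_left _ _) ?_ hrq (f + κ * a')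
      (i * κ + ρ) V' N ?_ (by omega) (by omega) ?_ ?_
    · intro P hP
      refine mult_coprime h hm hinv' hdet (b + (μ - 1) * κ) ?_
        (fun Q hQ hQd => hcop Q hQ (hFdvd Q hQ hQd)) _ (le_max_right _ _) (le_max_left _ _) hP
      intro P hP
      have h1 : ¬ P ^ (μ - 1 + 1) ∣ α j := by
        rw [Nat.sub_add_cancel hμ]
        exact hα j P hP
      have h2 := not_pow_dvd_pow hP h1 κ
      have h3 := not_pow_dvd_mul hP.prime (hb P hP) h2
      rwa [mul_comm κ] at h3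
    · rcases le_total (∑ l, m l) (b + (μ - 1) * κ) with h1 | h1
      · rw [max_eq_right h1]
        omega
      · rw [max_eq_left h1]
        omega
    · rw [natDegree_mul hB hFj, hFdef]
      show f + κ * a' = B.natDegree + (α j ^ κ).natDegree + d * ∑ l, m l
      rw [natDegree_pow, hf]
      ring
    · rw [hV', Nat.le_div_iff_mul_le hμ, mul_comm]
      refine le_trans ?_ (hV.trans (Nat.le_add_right V a'))
      have h1 := hdα j
      rw [← ha] at h1
      have h2 : f + κ * a' + 1 ≤ q * (f + 1) := by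
        have h3 : B.natDegree ≤ f := by omega
        have h4 : (q - 1) * B.natDegree ≤ (q - 1) * f := Nat.mul_le_mul_left _ h3
        have h5 : q * (f + 1) = (q - 1) * f + f + q := by
          obtain ⟨q', hq'⟩ : ∃ q', q = q' + 1 := ⟨q - 1, by omega⟩
          rw [hq', Nat.add_sub_cancel]
          ring
        omega
      calc μ * (8 * (r + 1) ^ 2 * (f + κ * a' + 1)) ≤ μ * (8 * (r + 1) ^ 2 * (q * (f + 1))) :=
            Nat.mul_le_mul_left _ (Nat.mul_le_mul_left _ h2)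
        _ = _ := by ring
    · have h1 : κ * (V + a') = (q - 1) * V' + i * κ := by
        rw [hVi, ← hμκ]
        ring
      rw [mul_add] at h1
      omega
  have hn0 : 0 < ∑ i, m i := Finset.sum_pos (fun i _ => hm i) ⟨0, Finset.mem_univ _⟩
  have hq0 : 0 < q := by omega
  have hcard : Fintype.card (Fin μ × (T → Fin μ)) = μ ^ ((primes B).ncard + 1) := by
    rw [Fintype.card_prod, Fintype.card_fun, Fintype.card_fin, Fintype.card_coe, hTc, pow_succ']
  have h7 := countG_of_bound (k₀ := k₀) (k := k) (p := p) (s := s) Pool.Agent.Y363.Kum.kummerDegreeFam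
    Pool.Agent.Y468.Kum.kummerProd Pool.Agent.Y427.Kum.kummerOrder hq hf₀ hk₀ hs hk (by omega) B β m
    hm (by omega) hinv N e (2 * Nat.card k ^ (N + 1) / q) he hμ hμq F hF (fun j => by
      rw [Nat.le_div_iff_mul_le hq0, mul_comm]
      exact h6 j)
  rw [hcard] at h7
  have h8 : {D : k[X] | D.natDegree ≤ N ∧ VanGX p (q - 1) e μ B (D * B) β m}.ncard ≤
      {D : k[X] | D.natDegree ≤ N ∧ VanG k₀ p q s e μ B (D * B) β m}.ncard :=
    Set.ncard_le_ncard (fun D hD => ⟨hD.1, vanG_of_vanGX hk₀ hk hD.2⟩)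
      ((finite_natDegree_le N).subset fun D hD => hD.1)
  calc q * {D : k[X] | D.natDegree ≤ N ∧ VanGX p (q - 1) e μ B (D * B) β m}.ncard ≤
      q * (e * (μ ^ ((primes B).ncard + 1) * (2 * Nat.card k ^ (N + 1) / q))) := Nat.mul_le_mul_left q (h8.trans h7)
    _ = e * μ ^ ((primes B).ncard + 1) * (q * (2 * Nat.card k ^ (N + 1) / q)) := by ring
    _ ≤ e * μ ^ ((primes B).ncard + 1) * (2 * Nat.card k ^ (N + 1)) := Nat.mul_le_mul_left _ (Nat.mul_div_le _ _)
    _ = _ := by ring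

end bound

end Pool.Agent.Y709.Kum
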