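import Pool.Agent.Y709.Kum.Loc

/-!
The product of the local factors over the points above a point of the line.
-/

set_option autoImplicit false
set_option linter.unusedSectionVars false

open Polynomial Module

namespace Pool.Agent.Y709.Kum

open Pool.Agent.W313.Hyp Pool.Agent.W343.BSD Pool.Agent.Y709 Pool.Agent.Y709.Gen
open Pool.Agent.Y709.Lay

theorem per_mul {M : Type} (F : ℕ → M) (n : ℕ) (h : ∀ j, F (j + n) = F j) (t i : ℕ) :
    F (i + n * t) = F i := by
  induction t with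
  | zero => rw [mul_zero, add_zero]
  | succ t ih => rw [Nat.mul_succ, ← add_assoc, h, ih]

theorem prod_range_periodic {M : Type} [CommMonoid M] (F : ℕ → M) (n : ℕ)
    (h : ∀ j, F (j + n) = F j) (t : ℕ) :
    ∏ j ∈ Finset.range (n * t), F j = (∏ i ∈ Finset.range n, F i) ^ t := by
  induction t with
  | zero => rw [mul_zero, Finset.prod_range_zero, pow_zero]
  | succ t ih =>
    rw [Nat.mul_succ, Finset.prod_range_add, ih, pow_succ]
    congr 1
    refine Finset.prod_congr rfl fun i _ => ?_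
    rw [add_comm]
    exact per_mul F n h t i

theorem count_id {N f μ p g c t : ℕ} (hf : 0 < f) (h : N * (f * p ^ c) = μ * p ^ g)
    (ht : μ = f * t) : N * p ^ c = t * p ^ g := by
  have h7 : f * (N * p ^ c) = f * (t * p ^ g) := by
    rw [ht] at h
    calc f * (N * p ^ c) = N * (f * p ^ c) := by ring
      _ = f * t * p ^ g := h
      _ = _ := by ring
  exact Nat.eq_of_mul_eq_mul_left hf h7

section pure

variable {k K : Type} [Field k] [Fintype k] [Field K] [Algebra k K]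

theorem aeval_pow_card (r : K) (γ : k[X]) (n : ℕ) :
    (aeval r γ) ^ (Fintype.card k ^ n) = aeval (r ^ (Fintype.card k ^ n)) γ := by
  induction n with
  | zero => rw [pow_zero, pow_one, pow_one]
  | succ n ih =>
    rw [pow_succ, pow_mul, pow_mul, ih, ← map_pow, ← FiniteField.expand_card,
      Polynomial.expand_aeval]

theorem aeval_root_pow (P : MI k) {r : K} (hr : aeval r P.1 = 0) (γ : k[X]) :
    (aeval r γ) ^ (Nat.card k ^ P.1.natDegree) = aeval r γ := by
  have h := root_pow P hr dvd_rfl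
  rw [Nat.card_eq_fintype_card] at h ⊢
  rw [aeval_pow_card, h]

theorem num_pow (P : MI k) {r : K} (hr : aeval r P.1 = 0) (γ : k[X]) (h0 : aeval r γ ≠ 0)
    {μ : ℕ} (hμk : μ ∣ Nat.card k - 1) :
    ((aeval r γ) ^ ((Nat.card k ^ P.1.natDegree - 1) / μ)) ^ μ = 1 := by
  have h6 : μ ∣ Nat.card k ^ P.1.natDegree - 1 :=
    hμk.trans (by simpa using Nat.sub_dvd_pow_sub_pow (Nat.card k) 1 P.1.natDegree)
  rw [← pow_mul, Nat.div_mul_cancel h6]
  have h7 := aeval_root_pow P hr γ
  have h8 : 0 < Nat.card k ^ P.1.natDegree := pow_pos Nat.card_pos _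
  obtain ⟨l, hl⟩ : ∃ l, Nat.card k ^ P.1.natDegree = l + 1 :=
    ⟨Nat.card k ^ P.1.natDegree - 1, by omega⟩
  rw [hl] at h7 ⊢
  rw [pow_succ] at h7
  rw [Nat.add_sub_cancel]
  exact mul_right_cancel₀ h0 (h7.trans (one_mul _).symm)

end pure

section fib

variable {k K : Type} [Field k] [Fintype k] [Field K] [Algebra k K] [IsAlgClosed K]
  [Algebra.IsAlgebraic k K] {κ : Type} [Fintype κ] [DecidableEq κ]
  {O : Type} [CommRing O] [Algebra k[X] O] (G : Type) [Group G] [Finite G]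
  [MulSemiringAction G O] [IsGaloisGroup G k[X] O] [FaithfulSMul k[X] O]
  [hfd : ∀ 𝔪 : MaximalSpectrum O, FiniteDimensional k (RO k 𝔪)]

/-- the degree of a point above `P` -/
theorem deg_above (hKD : KummerDegree) {p : ℕ} [hp : Fact p.Prime] {μ : ℕ} (hμ : 0 < μ)
    (hμk : μ ∣ Nat.card k - 1)
    (w : O) (γ : k[X]) (hw : w ^ μ = algebraMap k[X] O γ)
    (hact : ∀ σ : G, ∃ c : k, σ • w = algebraMap k[X] O (C c) * w)
    (hstab : IsPGroup p (MulAction.stabilizer G w)) (P : MI k) {r : K} (hr : aeval r P.1 = 0)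
    (hγP : ¬ P.1 ∣ γ) (𝔪 : MaximalSpectrum O) (h : 𝔪 ∈ above k P)
    (hun : 𝔪.asIdeal.inertia G = ⊥) : ∃ c, 𝔪.asIdeal.inertiaDeg k[X] =
      orderOf ((aeval r γ) ^ ((Nat.card k ^ P.1.natDegree - 1) / μ)) * p ^ c := by
  have e1 : pt (k := k) 𝔪 = P := Subtype.ext h
  obtain ⟨σ, hσ⟩ := exists_emb (k := k) (𝔪 := 𝔪) (P := P) h hr
  have hwm : w ∉ 𝔪.asIdeal := by
    intro h0
    apply hγP
    have h6 : algebraMap k[X] O γ ∈ 𝔪.asIdeal := by
      rw [← hw]
      exact Ideal.pow_mem_of_mem _ h0 μ hμ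
    have h6' : vO k 𝔪 γ = 0 := (Ideal.Quotient.eq_zero_iff_mem).2 h6
    rw [vO_zero_iff, e1] at h6'
    exact h6'
  obtain ⟨c, hc⟩ := hKD k O G p μ hμ hμk w γ hw hact hstab 𝔪 hun hwm
    P.1.natDegree (by rw [under_eq, e1, finrank_quot])
  refine ⟨c, ?_⟩
  rw [hc]
  congr 1
  have h6 : σ ((vO k 𝔪 γ) ^ ((Nat.card k ^ P.1.natDegree - 1) / μ)) =
      (aeval r γ) ^ ((Nat.card k ^ P.1.natDegree - 1) / μ) := by
    rw [map_pow, vO_eq_aeval, ← Polynomial.aeval_algHom_apply, hσ]
  rw [← h6]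
  exact (orderOf_injective (σ : RO k 𝔪 →* K) (σ : RO k 𝔪 →+* K).injective _).symm

theorem fibre_prod (hKD : KummerDegree) (hKC : KummerChar) {p g μ : ℕ} [hp : Fact p.Prime]
    [CharP k p] (hμ : 0 < μ) (hμk : μ ∣ Nat.card k - 1) (hG : Nat.card G = μ * p ^ g)
    (w : O) (γ : k[X]) (hw : w ^ μ = algebraMap k[X] O γ)
    (hact : ∀ σ : G, ∃ c : k, σ • w = algebraMap k[X] O (C c) * w)
    (hstab : IsPGroup p (MulAction.stabilizer G w)) (E : k[X])
    (hγE : ∀ P : k[X], Irreducible P → P ∣ γ → P ∣ E)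
    (hun : ∀ 𝔪 : MaximalSpectrum O, vO k 𝔪 E ≠ 0 → 𝔪.asIdeal.inertia G = ⊥)
    (A : MI k → Matrix κ κ K) (hA0 : ∀ P : MI k, P.1 ∣ E → A P = 0) (P : MI k) {r : K}
    (hr : aeval r P.1 = 0) :
    ∏ 𝔪 ∈ (above_finite (O := O) G P).toFinset, PowerSeries.expand
      (finrank k (RO k 𝔪)) (finrank_ne' G 𝔪)
        ((A (pt (k := k) 𝔪) ^ (𝔪.asIdeal.inertiaDeg k[X])).charpolyRev : PowerSeries K) =
    (∏ j ∈ Finset.range μ, PowerSeries.expand P.1.natDegree (deg_ne P)
        (((((aeval r γ) ^ ((Nat.card k ^ P.1.natDegree - 1) / μ)) ^ j) • A P).charpolyRev :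
          PowerSeries K)) ^ (p ^ g) := by
  classical
  have hpK : CharP K p := charP_of_injective_algebraMap (algebraMap k K).injective p
  by_cases hE : P.1 ∣ E
  · rw [Finset.prod_congr rfl (g := fun _ => (1 : PowerSeries K))]
    · rw [Finset.prod_const_one, Finset.prod_congr rfl (g := fun _ => (1 : PowerSeries K)),
        Finset.prod_const_one, one_pow]
      intro j _
      rw [hA0 P hE, smul_zero, charpolyRev_zero', Polynomial.coe_one, map_one]
    · intro 𝔪 h
      rw [Set.Finite.mem_toFinset] at h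
      have e2 : pt (k := k) 𝔪 = P := Subtype.ext h
      rw [e2, hA0 P hE, zero_pow (inertiaDeg_pos (k := k) G).ne', charpolyRev_zero',
        Polynomial.coe_one, map_one]
  · have hunP : ∀ 𝔪 : MaximalSpectrum O, 𝔪 ∈ above k P → 𝔪.asIdeal.inertia G = ⊥ := by
      intro 𝔪 h
      apply hun
      intro h0
      rw [vO_zero_iff] at h0
      have e1 : (pt (k := k) 𝔪).1 = P.1 := h
      rw [e1] at h0
      exact hE h0
    have hγP : ¬ P.1 ∣ γ := fun h => hE (hγE P.1 P.2.2 h)
    have hγ0 : aeval r γ ≠ 0 := by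
      intro h0
      apply hγP
      have h6 : minpoly k r = P.1 :=
        (minpoly.eq_of_irreducible_of_monic P.2.2 hr P.2.1).symm
      rw [← h6]
      exact minpoly.dvd k _ h0
    have hUμ := num_pow P hr γ hγ0 hμk
    generalize hU : (aeval r γ) ^ ((Nat.card k ^ P.1.natDegree - 1) / μ) = U at hUμ ⊢
    have hf'pos : 0 < orderOf U := orderOf_pos_iff.2 (isOfFinOrder_iff_pow_eq_one.2 ⟨μ, hμ, hUμ⟩)
    obtain ⟨t, ht⟩ : orderOf U ∣ μ := orderOf_dvd_of_pow_eq_one hUμ
    have hdeg : ∀ 𝔪 : MaximalSpectrum O, 𝔪 ∈ above k P → ∃ c,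
        𝔪.asIdeal.inertiaDeg k[X] = orderOf U * p ^ c := by
      intro 𝔪 h
      rw [← hU]
      exact deg_above G hKD hμ hμk w γ hw hact hstab P hr hγP 𝔪 h (hunP 𝔪 h)
    obtain ⟨𝔪₀, h₀⟩ := above_nonempty (O := O) G P
    obtain ⟨c, hc⟩ := hdeg 𝔪₀ h₀
    have hmul := fun (𝔪 : MaximalSpectrum O) (h : 𝔪 ∈ above k P) => inertia_mul G h
    have hcount : (above k P : Set (MaximalSpectrum O)).ncard * (orderOf U * p ^ c) =
        μ * p ^ g := by
      have h6 := hmul 𝔪₀ h₀
      rw [hunP 𝔪₀ h₀, Subgroup.card_bot, mul_one, hc, hG] at h6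
      exact h6
    have hsame : ∀ 𝔪 : MaximalSpectrum O, 𝔪 ∈ above k P →
        𝔪.asIdeal.inertiaDeg k[X] = orderOf U * p ^ c := by
      intro 𝔪 h
      have h6 := hmul 𝔪 h
      rw [hunP 𝔪 h, Subgroup.card_bot, mul_one, hG, ← hcount] at h6
      have h7 : 0 < (above k P : Set (MaximalSpectrum O)).ncard := by
        rcases Nat.eq_zero_or_pos (above k P : Set (MaximalSpectrum O)).ncard with h' | h'
        · rw [h', zero_mul] at hcount
          have h9 : 0 < μ * p ^ g := Nat.mul_pos hμ (pow_pos hp.out.pos g)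
          omega
        · exact h'
      exact Nat.eq_of_mul_eq_mul_left h7 h6
    have hψP : ∀ 𝔪 ∈ (above_finite (O := O) G P).toFinset,
        PowerSeries.expand (finrank k (RO k 𝔪)) (finrank_ne' G 𝔪)
        ((A (pt (k := k) 𝔪) ^ (𝔪.asIdeal.inertiaDeg k[X])).charpolyRev : PowerSeries K) =
        (∏ i ∈ Finset.range (orderOf U), PowerSeries.expand P.1.natDegree (deg_ne P)
        (((U ^ i) • A P).charpolyRev : PowerSeries K)) ^ (p ^ c) := by
      intro 𝔪 h
      rw [Set.Finite.mem_toFinset] at h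
      have e1 : pt (k := k) 𝔪 = P := Subtype.ext h
      have e2 : finrank k (RO k 𝔪) = P.1.natDegree * (orderOf U * p ^ c) := by
        rw [finrank_RO (k := k) G 𝔪, e1, hsame 𝔪 h]
      rw [e1, hsame 𝔪 h]
      exact hKC K p κ (A P) U hf'pos c P.1.natDegree (finrank k (RO k 𝔪)) (deg_ne P)
        (finrank_ne' G 𝔪) e2
    rw [Finset.prod_congr rfl hψP, Finset.prod_const, ← Set.ncard_eq_toFinset_card _
      (above_finite (O := O) G P), ← pow_mul]
    have hprod := prod_range_periodic (fun j => PowerSeries.expand P.1.natDegree (deg_ne P)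
        (((U ^ j) • A P).charpolyRev : PowerSeries K)) (orderOf U) (fun j => by
          show PowerSeries.expand P.1.natDegree (deg_ne P)
            (((U ^ (j + orderOf U)) • A P).charpolyRev : PowerSeries K) = _
          rw [pow_add, pow_orderOf_eq_one, mul_one]) t
    have h6 := count_id hf'pos hcount ht
    rw [ht, hprod, ← pow_mul]
    congr 1
    rw [mul_comm (p ^ c)]
    exact h6

end fib

end Pool.Agent.Y709.Kum
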