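import Pool.Agent.Y709.Kum.Fibre
import Pool.Agent.Y709.Kum.Stm2

/-!
The product of the local factors over the points above a point of the line, for coverings whose group is
an extension of an abelian group by a `p`-group.
-/

set_option autoImplicit false
set_option linter.unusedSectionVars false

open Polynomial Module

namespace Pool.Agent.Y709.Kum

open Pool.Agent.W313.Hyp Pool.Agent.W343.BSD Pool.Agent.Y709 Pool.Agent.Y709.Gen
open Pool.Agent.Y709.Lay

theorem count_idF {N f μ n₀ h p g c t a : ℕ} (hf : 0 < f) (h1 : N * (f * p ^ c) = n₀ * p ^ g)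
    (ht : μ ^ a = f * t) (hh : μ ^ a = n₀ * h) : p ^ c * N * h = t * p ^ g := by
  have h7 : f * (p ^ c * N * h) = f * (t * p ^ g) := by
    calc f * (p ^ c * N * h) = (N * (f * p ^ c)) * h := by ring
      _ = (n₀ * h) * p ^ g := by rw [h1]; ring
      _ = f * t * p ^ g := by rw [← hh, ht]
      _ = _ := by ring
  exact Nat.eq_of_mul_eq_mul_left hf h7

section fib

variable {k K : Type} [Field k] [Fintype k] [Field K] [Algebra k K] [IsAlgClosed K]
  [Algebra.IsAlgebraic k K] {κ : Type} [Fintype κ] [DecidableEq κ]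
  {O : Type} [CommRing O] [Algebra k[X] O] (G : Type) [Group G] [Finite G]
  [MulSemiringAction G O] [IsGaloisGroup G k[X] O] [FaithfulSMul k[X] O]
  [hfd : ∀ 𝔪 : MaximalSpectrum O, FiniteDimensional k (RO k 𝔪)]

/-- the degree of a point above `P` -/
theorem deg_aboveF (hKD : KummerDegreeFam) {p : ℕ} [hp : Fact p.Prime] {μ a : ℕ} (hμ : 0 < μ)
    (hμk : μ ∣ Nat.card k - 1)
    (w : Fin a → O) (γ : Fin a → k[X]) (hw : ∀ i, w i ^ μ = algebraMap k[X] O (γ i))
    (hact : ∀ i, ∀ σ : G, ∃ c : k, σ • w i = algebraMap k[X] O (C c) * w i)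
    (hstab : IsPGroup p (⨅ i, MulAction.stabilizer G (w i) : Subgroup G)) (P : MI k) {r : K}
    (hr : aeval r P.1 = 0)
    (hγP : ∀ i, ¬ P.1 ∣ γ i) (𝔪 : MaximalSpectrum O) (h : 𝔪 ∈ above k P)
    (hun : 𝔪.asIdeal.inertia G = ⊥) : ∃ c, 𝔪.asIdeal.inertiaDeg k[X] =
      orderOf (fun i => (aeval r (γ i)) ^ ((Nat.card k ^ P.1.natDegree - 1) / μ)) * p ^ c := by
  have e1 : pt (k := k) 𝔪 = P := Subtype.ext h
  obtain ⟨σ, hσ⟩ := exists_emb (k := k) (𝔪 := 𝔪) (P := P) h hr
  have hwm : ∀ i, w i ∉ 𝔪.asIdeal := by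
    intro i h0
    apply hγP i
    have h6 : algebraMap k[X] O (γ i) ∈ 𝔪.asIdeal := by
      rw [← hw]
      exact Ideal.pow_mem_of_mem _ h0 μ hμ
    have h6' : vO k 𝔪 (γ i) = 0 := (Ideal.Quotient.eq_zero_iff_mem).2 h6
    rw [vO_zero_iff, e1] at h6'
    exact h6'
  obtain ⟨c, hc⟩ := hKD k O G p μ a hμ hμk w γ hw hact hstab 𝔪 hun hwm
    P.1.natDegree (by rw [under_eq, e1, finrank_quot])
  refine ⟨c, ?_⟩
  rw [hc]
  congr 1
  have h6 : ∀ i, σ ((vO k 𝔪 (γ i)) ^ ((Nat.card k ^ P.1.natDegree - 1) / μ)) =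
      (aeval r (γ i)) ^ ((Nat.card k ^ P.1.natDegree - 1) / μ) := by
    intro i
    rw [map_pow, vO_eq_aeval, ← Polynomial.aeval_algHom_apply, hσ]
  have h7 : (fun i => (aeval r (γ i)) ^ ((Nat.card k ^ P.1.natDegree - 1) / μ)) =
      (((σ : RO k 𝔪 →* K).compLeft (Fin a))
        (fun i => (vO k 𝔪 (γ i)) ^ ((Nat.card k ^ P.1.natDegree - 1) / μ))) := by
    funext i
    exact (h6 i).symm
  rw [h7]
  exact (orderOf_injective ((σ : RO k 𝔪 →* K).compLeft (Fin a)) (fun x y hxy => funext fun i =>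
    (σ : RO k 𝔪 →+* K).injective (congrFun hxy i)) _).symm

theorem fibre_prodF (hKD : KummerDegreeFam) (hKC : KummerChar) (hKP : KummerProd)
    {p g μ a n₀ h : ℕ} [hp : Fact p.Prime]
    [CharP k p] (hμ : 0 < μ) (hμk : μ ∣ Nat.card k - 1) (hG : Nat.card G = n₀ * p ^ g)
    (hh : μ ^ a = n₀ * h)
    (w : Fin a → O) (γ : Fin a → k[X]) (hw : ∀ i, w i ^ μ = algebraMap k[X] O (γ i))
    (hact : ∀ i, ∀ σ : G, ∃ c : k, σ • w i = algebraMap k[X] O (C c) * w i)
    (hstab : IsPGroup p (⨅ i, MulAction.stabilizer G (w i) : Subgroup G)) (E : k[X])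
    (hγE : ∀ i, ∀ P : k[X], Irreducible P → P ∣ γ i → P ∣ E)
    (hun : ∀ 𝔪 : MaximalSpectrum O, vO k 𝔪 E ≠ 0 → 𝔪.asIdeal.inertia G = ⊥)
    (A : MI k → Matrix κ κ K) (hA0 : ∀ P : MI k, P.1 ∣ E → A P = 0) (P : MI k) {r : K}
    (hr : aeval r P.1 = 0) :
    (∏ 𝔪 ∈ (above_finite (O := O) G P).toFinset, PowerSeries.expand
      (finrank k (RO k 𝔪)) (finrank_ne' G 𝔪)
        ((A (pt (k := k) 𝔪) ^ (𝔪.asIdeal.inertiaDeg k[X])).charpolyRev : PowerSeries K)) ^ h =
    (∏ v : Fin a → Fin μ, PowerSeries.expand P.1.natDegree (deg_ne P)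
        (((∏ i, ((aeval r (γ i)) ^ ((Nat.card k ^ P.1.natDegree - 1) / μ)) ^ (v i : ℕ)) •
          A P).charpolyRev : PowerSeries K)) ^ (p ^ g) := by
  classical
  have hpK : CharP K p := charP_of_injective_algebraMap (algebraMap k K).injective p
  by_cases hE : P.1 ∣ E
  · rw [Finset.prod_congr rfl (g := fun _ => (1 : PowerSeries K))]
    · rw [Finset.prod_const_one, Finset.prod_congr rfl (g := fun _ => (1 : PowerSeries K)),
        Finset.prod_const_one, one_pow, one_pow]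
      intro j _
      rw [hA0 P hE, smul_zero, charpolyRev_zero', Polynomial.coe_one, map_one]
    · intro 𝔪 h
      rw [Set.Finite.mem_toFinset] at h
      have e2 : pt (k := k) 𝔪 = P := Subtype.ext h
      rw [e2, hA0 P hE, zero_pow (inertiaDeg_pos (k := k) G).ne', charpolyRev_zero',
        Polynomial.coe_one, map_one]
  · have hunP : ∀ 𝔪 : MaximalSpectrum O, 𝔪 ∈ above k P → 𝔪.asIdeal.inertia G = ⊥ := by
      intro 𝔪 h
      apply hun
      intro h0
      rw [vO_zero_iff] at h0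
      have e1 : (pt (k := k) 𝔪).1 = P.1 := h
      rw [e1] at h0
      exact hE h0
    have hγP : ∀ i, ¬ P.1 ∣ γ i := fun i h => hE (hγE i P.1 P.2.2 h)
    have hγ0 : ∀ i, aeval r (γ i) ≠ 0 := by
      intro i h0
      apply hγP i
      have h6 : minpoly k r = P.1 :=
        (minpoly.eq_of_irreducible_of_monic P.2.2 hr P.2.1).symm
      rw [← h6]
      exact minpoly.dvd k _ h0
    have hUμ := fun i => num_pow P hr (γ i) (hγ0 i) hμk
    have hdeg0 := fun (𝔪 : MaximalSpectrum O) (h : 𝔪 ∈ above k P) =>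
      deg_aboveF G hKD hμ hμk w γ hw hact hstab P hr hγP 𝔪 h (hunP 𝔪 h)
    have key : ∀ U : Fin a → K, (∀ i, U i ^ μ = 1) → (∀ 𝔪 : MaximalSpectrum O, 𝔪 ∈ above k P →
        ∃ c, 𝔪.asIdeal.inertiaDeg k[X] = orderOf U * p ^ c) →
        (∏ 𝔪 ∈ (above_finite (O := O) G P).toFinset, PowerSeries.expand
          (finrank k (RO k 𝔪)) (finrank_ne' G 𝔪)
            ((A (pt (k := k) 𝔪) ^ (𝔪.asIdeal.inertiaDeg k[X])).charpolyRev : PowerSeries K)) ^ h =
        (∏ v : Fin a → Fin μ, PowerSeries.expand P.1.natDegree (deg_ne P)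
            (((∏ i, (U i) ^ (v i : ℕ)) • A P).charpolyRev : PowerSeries K)) ^ (p ^ g) := by
      intro U hUμ hdeg
      obtain ⟨u, t, hu, ht, hprod⟩ := hKP K μ a hμ U hUμ (PowerSeries K) (fun x =>
        PowerSeries.expand P.1.natDegree (deg_ne P) ((x • A P).charpolyRev : PowerSeries K))
      have hf'pos : 0 < orderOf U := orderOf_pos_iff.2
        (isOfFinOrder_iff_pow_eq_one.2 ⟨μ, hμ, funext hUμ⟩)
      obtain ⟨𝔪₀, h₀⟩ := above_nonempty (O := O) G P
      obtain ⟨c, hc⟩ := hdeg 𝔪₀ h₀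
      have hmul := fun (𝔪 : MaximalSpectrum O) (h : 𝔪 ∈ above k P) => inertia_mul G h
      have hcount : (above k P : Set (MaximalSpectrum O)).ncard * (orderOf U * p ^ c) =
          n₀ * p ^ g := by
        have h6 := hmul 𝔪₀ h₀
        rw [hunP 𝔪₀ h₀, Subgroup.card_bot, mul_one, hc, hG] at h6
        exact h6
      have hn₀ : 0 < n₀ := by
        rcases Nat.eq_zero_or_pos n₀ with h' | h'
        · rw [h', zero_mul] at hh
          have := pow_pos hμ a
          omega
        · exact h'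
      have hsame : ∀ 𝔪 : MaximalSpectrum O, 𝔪 ∈ above k P →
          𝔪.asIdeal.inertiaDeg k[X] = orderOf U * p ^ c := by
        intro 𝔪 h
        have h6 := hmul 𝔪 h
        rw [hunP 𝔪 h, Subgroup.card_bot, mul_one, hG, ← hcount] at h6
        have h7 : 0 < (above k P : Set (MaximalSpectrum O)).ncard := by
          rcases Nat.eq_zero_or_pos (above k P : Set (MaximalSpectrum O)).ncard with h' | h'
          · rw [h', zero_mul] at hcount
            have h9 : 0 < n₀ * p ^ g := Nat.mul_pos hn₀ (pow_pos hp.out.pos g)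
            omega
          · exact h'
        exact Nat.eq_of_mul_eq_mul_left h7 h6
      have hψP : ∀ 𝔪 ∈ (above_finite (O := O) G P).toFinset,
          PowerSeries.expand (finrank k (RO k 𝔪)) (finrank_ne' G 𝔪)
          ((A (pt (k := k) 𝔪) ^ (𝔪.asIdeal.inertiaDeg k[X])).charpolyRev : PowerSeries K) =
          (∏ i ∈ Finset.range (orderOf U), PowerSeries.expand P.1.natDegree (deg_ne P)
          (((u ^ i) • A P).charpolyRev : PowerSeries K)) ^ (p ^ c) := by
        intro 𝔪 h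
        rw [Set.Finite.mem_toFinset] at h
        have e1 : pt (k := k) 𝔪 = P := Subtype.ext h
        have e2 : finrank k (RO k 𝔪) = P.1.natDegree * (orderOf u * p ^ c) := by
          rw [finrank_RO (k := k) G 𝔪, e1, hsame 𝔪 h, hu]
        have h8 := hKC K p κ (A P) u (by rw [hu]; exact hf'pos) c P.1.natDegree
          (finrank k (RO k 𝔪)) (deg_ne P) (finrank_ne' G 𝔪) e2
        rw [hu] at h8
        rw [e1, hsame 𝔪 h]
        exact h8
      rw [Finset.prod_congr rfl hψP, Finset.prod_const, ← Set.ncard_eq_toFinset_card _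
        (above_finite (O := O) G P), ← pow_mul, ← pow_mul]
      rw [hprod, ← pow_mul]
      congr 1
      rw [← mul_assoc]
      exact count_idF hf'pos hcount ht hh
    exact key _ hUμ hdeg0

end fib

end Pool.Agent.Y709.Kum
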