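import Pool.Agent.Y709.Kum.Fibre

/-!
The functional equation over a covering of the line whose group is an extension of a cyclic group by a
`p`-group, and its reduction.
-/

set_option autoImplicit false
set_option linter.unusedSectionVars false

open Polynomial Module

namespace Pool.Agent.Y709.Kum

open Pool.Agent.W313.Hyp Pool.Agent.W343.BSD Pool.Agent.Y709 Pool.Agent.Y709.Gen
open Pool.Agent.Y709.Lay

theorem coe_prod' {K : Type} [Field K] (F : ℕ → K[X]) (n : ℕ) :
    ((∏ j ∈ Finset.range n, F j : K[X]) : PowerSeries K) =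
      ∏ j ∈ Finset.range n, (F j : PowerSeries K) := by
  induction n with
  | zero => rw [Finset.prod_range_zero, Finset.prod_range_zero, Polynomial.coe_one]
  | succ n ih => rw [Finset.prod_range_succ, Finset.prod_range_succ, Polynomial.coe_mul, ih]

theorem twist_num {k K : Type} [Field k] [Fintype k] [Field K] [Algebra k K] (P : MI k) {r : K}
    (hr : aeval r P.1 = 0) {q s μ j : ℕ} (hq1 : 1 < q) (hμ : 0 < μ) (hμq : μ ∣ q - 1)
    {F δ γ : k[X]} (hδ : F * δ ^ (q - 1) = γ ^ (j * ((q - 1) / μ))) (h0 : aeval r δ ≠ 0)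
    (hk : Nat.card k = q ^ s) :
    (aeval r F) ^ (∑ i ∈ Finset.range (P.1.natDegree * s), q ^ i) =
      ((aeval r γ) ^ ((Nat.card k ^ P.1.natDegree - 1) / μ)) ^ j := by
  have h1 : Nat.card k ^ P.1.natDegree = q ^ (P.1.natDegree * s) := by
    rw [hk, ← pow_mul]
    congr 1
    ring
  have h2 : (q - 1) * ∑ i ∈ Finset.range (P.1.natDegree * s), q ^ i =
      q ^ (P.1.natDegree * s) - 1 := by
    rw [mul_comm, Nat.geomSum_eq hq1]
    exact Nat.div_mul_cancel (by simpa using Nat.sub_dvd_pow_sub_pow q 1 (P.1.natDegree * s))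
  have h3 : (aeval r δ) ^ (q ^ (P.1.natDegree * s) - 1) = 1 := by
    have h7 := aeval_root_pow P hr δ
    rw [h1] at h7
    have h8 : 0 < q ^ (P.1.natDegree * s) := pow_pos (by omega) _
    obtain ⟨l, hl⟩ : ∃ l, q ^ (P.1.natDegree * s) = l + 1 :=
      ⟨q ^ (P.1.natDegree * s) - 1, by omega⟩
    rw [hl] at h7 ⊢
    rw [pow_succ] at h7
    rw [Nat.add_sub_cancel]
    exact mul_right_cancel₀ h0 (h7.trans (one_mul _).symm)
  have h4 := congrArg (fun x => (aeval r x) ^ (∑ i ∈ Finset.range (P.1.natDegree * s), q ^ i)) hδ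
  rw [map_mul, mul_pow, map_pow, ← pow_mul, h2, h3, mul_one, map_pow, ← pow_mul, mul_assoc,
    exp_eq hμ hq1 hμq] at h4
  rw [h4, h1, ← pow_mul, mul_comm j]

section glob

variable {k₀ k R K : Type} [Field k₀] [Fintype k₀] [Field k] [Fintype k] [Algebra k₀ k]
  [CommRing R] [IsDomain R] [CharZero R] [Field K] [Algebra k K] [IsAlgClosed K]
  [Algebra.IsAlgebraic k K] (π : R →+* K)
  (hu : ∀ r : R, π r ≠ 0 → IsUnit r) (χ : MulChar k₀ R)
  (hχ : ∀ u : k₀, π (χ u) = algebraMap k K (algebraMap k₀ k u))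
  {κ : Type} [Fintype κ] [DecidableEq κ]
  {O : Type} [CommRing O] [Algebra k[X] O] (G : Type) [Group G] [Finite G]
  [MulSemiringAction G O] [IsGaloisGroup G k[X] O] [FaithfulSMul k[X] O]

include hu hχ in
/-- the functional equation over the covering and its reduction -/
theorem global_feK (hKD : KummerDegree) (hKC : KummerChar)
    {p f₀ q s n d g : ℕ} [hp : Fact p.Prime] [CharP k p] (hq : q = p ^ f₀)
    (hf₀ : 0 < f₀) (hk₀ : Fintype.card k₀ = q) (hs : 0 < s) (hk : Fintype.card k = q ^ s)
    (h5 : 5 ≤ q) {μ : ℕ} (hμ : 0 < μ) (hμq : μ ∣ q - 1) (hG : Nat.card G = μ * p ^ g)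
    (w : O) (γ : k[X]) (hw : w ^ μ = algebraMap k[X] O γ)
    (hact : ∀ σ : G, ∃ c : k, σ • w = algebraMap k[X] O (C c) * w)
    (hstab : IsPGroup p (MulAction.stabilizer G w)) (E : k[X])
    (hγE : ∀ P : k[X], Irreducible P → P ∣ γ → P ∣ E) (F : ℕ → k[X])
    (hF : ∀ j < μ, ∃ δ : k[X], F j * δ ^ (q - 1) = γ ^ (j * ((q - 1) / μ))) (b : κ → k[X])
    (hb : ∀ i, (b i).natDegree ≤ d) {m : κ → ℕ} (hm : ∀ i, 0 < m i)
    (hmq : ∑ i, m i < q - 1) (hinv : ∀ i : ℕ, i < ∑ l, m l → ((i : k₀) + 1) ≠ 0) (o : κ)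
    (hn : ∀ j < μ, (E * F j).natDegree + d * ∑ i, m i < (q - 1) * (n + 1))
    (hun : ∀ 𝔪 : MaximalSpectrum O, vO k 𝔪 E ≠ 0 → 𝔪.asIdeal.inertia G = ⊥) :
    ∃ L : PowerSeries R, LO O χ E b m * PowerSeries.rescale ((q : R) ^ s) L = 1 ∧
      PowerSeries.map π L * (((∏ j ∈ Finset.range μ,
        (mprod (fun i => kmat q n (tw K p f₀ (MG (E * F j) b m o) i))
          s).charpolyRev) ^ (p ^ g) : K[X]) : PowerSeries K) = 1 := by
  classical
  have hfin := fun n => points_finite (k := k) (O := O) G n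
  have hfink := fun n => finite_deg_le (F := k) n
  have hroot := fun P : MI k => exists_root_MI (K := K) P
  choose ρ hρ using hroot
  have hfd : ∀ 𝔪 : MaximalSpectrum O, FiniteDimensional k (RO k 𝔪) := fun 𝔪 => finiteDim_RO G 𝔪
  have hpK : CharP K p := charP_of_injective_algebraMap (algebraMap k K).injective p
  have hq1 : 1 < q := by omega
  -- the matrix of a point
  set A : MI k → Matrix κ κ K := fun P =>
    locS (MonoidHom.id K) q (tw K p f₀ (MG E b m o)) (ρ P) (P.1.natDegree * s) with hA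
  -- the local factors
  have hloc : ∀ 𝔪 : MaximalSpectrum O, ∃ Q : R[X], Q.coeff 0 = 1 ∧
      fibG R χ (fibp (vO k 𝔪 E) (fun i => vO k 𝔪 (b i)) m) *
        PowerSeries.rescale (((q : R) ^ s) ^ (finrank k (RO k 𝔪))) (Q : PowerSeries R) = 1 ∧
      (Q.map π : K[X]) =
        (A (pt (k := k) 𝔪) ^ (𝔪.asIdeal.inertiaDeg k[X])).charpolyRev := by
    intro 𝔪
    have hfi : Finite (RO k 𝔪) := finite_RO (k := k) G 𝔪
    have hFt : Fintype (RO k 𝔪) := Fintype.ofFinite _
    have hfin0 : Finite k₀ := inferInstance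
    have hmf : Module.Finite k₀ (RO k 𝔪) := Module.Finite.of_finite
    set P := pt (k := k) 𝔪 with hP
    set f := 𝔪.asIdeal.inertiaDeg k[X] with hf
    have hfr : finrank k (RO k 𝔪) = P.1.natDegree * f := finrank_RO (k := k) G 𝔪
    have hfpos : 0 < f := inertiaDeg_pos (k := k) G
    have hFc : Fintype.card (RO k 𝔪) = q ^ (f * (P.1.natDegree * s)) := by
      have h1 := Module.card_eq_pow_finrank (K := k) (V := RO k 𝔪)
      rw [h1, hk, hfr, ← pow_mul]
      congr 1
      ring
    have hFp : CharP (RO k 𝔪) p :=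
      charP_of_injective_algebraMap (algebraMap k (RO k 𝔪)).injective p
    obtain ⟨σ, hσ⟩ := exists_emb (k := k) (𝔪 := 𝔪) (P := P) rfl (hρ P)
    obtain ⟨Q, h0, h1, h2⟩ := fibre_feG π (σ : RO k 𝔪 →+* K) χ (fun u => by
        rw [hχ]
        exact (σ.commutes (algebraMap k₀ k u)).symm) hu hq hf₀ hk₀ h5
      (Nat.mul_pos hfpos (Nat.mul_pos (MI.deg_pos P) hs)) hFc hm hmq hinv (vO k 𝔪 E)
      (fun i => vO k 𝔪 (b i)) o
    refine ⟨Q, h0, ?_, ?_⟩
    · have h3 : ((q : R) ^ s) ^ (finrank k (RO k 𝔪)) = (q : R) ^ (f * (P.1.natDegree * s)) := by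
        rw [← pow_mul, hfr]
        congr 1
        ring
      rw [h3]
      exact h1
    · rw [h2, locFS_MG hq hk E b m o P (hρ P) σ hσ f]
  choose Q hQ0 hQ1 hQ2 using hloc
  have hQc : ∀ 𝔪, PowerSeries.constantCoeff (Q 𝔪 : PowerSeries R) = 1 := by
    intro 𝔪
    rw [← PowerSeries.coeff_zero_eq_constantCoeff_apply, Polynomial.coeff_coe, hQ0]
  refine ⟨eulerProd (fun 𝔪 : MaximalSpectrum O => finrank k (RO k 𝔪))
    (fun 𝔪 => PowerSeries.expand (finrank k (RO k 𝔪)) (finrank_ne' G 𝔪)
      (Q 𝔪 : PowerSeries R)), ?_, ?_⟩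
  · rw [rescale_euler hfin, LO_eq G, ← eulerProd_mul hfin]
    · have h1 : (fun 𝔪 : MaximalSpectrum O => PowerSeries.expand (finrank k (RO k 𝔪))
          (finrank_ne' G 𝔪) (fibG R χ (fibp (vO k 𝔪 E) (fun i => vO k 𝔪 (b i)) m)) *
            PowerSeries.rescale ((q : R) ^ s) (PowerSeries.expand (finrank k (RO k 𝔪))
              (finrank_ne' G 𝔪) (Q 𝔪 : PowerSeries R))) = fun _ => 1 := by
        funext 𝔪
        rw [rescale_expand, ← map_mul, hQ1, map_one]
      rw [h1]
      exact eulerProd_one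
    · intro 𝔪
      apply expand_mod
      have h1 := congrArg PowerSeries.constantCoeff (hQ1 𝔪)
      rw [map_mul, map_one] at h1
      have h2 : PowerSeries.constantCoeff (PowerSeries.rescale (((q : R) ^ s) ^
          (finrank k (RO k 𝔪))) (Q 𝔪 : PowerSeries R)) = 1 := by
        rw [← PowerSeries.coeff_zero_eq_constantCoeff_apply, PowerSeries.coeff_rescale, pow_zero,
          one_mul, PowerSeries.coeff_zero_eq_constantCoeff_apply, hQc]
      rwa [h2, mul_one] at h1
    · intro 𝔪
      rw [rescale_expand]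
      apply expand_mod
      rw [← PowerSeries.coeff_zero_eq_constantCoeff_apply, PowerSeries.coeff_rescale, pow_zero,
          one_mul, PowerSeries.coeff_zero_eq_constantCoeff_apply, hQc]
  · rw [map_eulerProd hfin]
    -- the factors of the points of the line
    set φ : ℕ → MI k → PowerSeries K := fun j P => locFS (MonoidHom.id K) q s
      (tw K p f₀ (MG (E * F j) b m o)) (ρ P) P.1.natDegree (deg_ne P) with hφ
    have hφ1 : ∀ j, ∀ P : MI k, (PowerSeries.X : PowerSeries K) ^ P.1.natDegree ∣ φ j P - 1 :=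
      fun j P => locFS_mod _ _ _ _ _ _ _
    have hA0 : ∀ P : MI k, P.1 ∣ E → A P = 0 := by
      intro P hE
      have h6 : locS (MonoidHom.id K) q (tw K p f₀ (MG E b m o)) (ρ P)
          (P.1.natDegree * s) = 0 := by
        obtain ⟨c, hc⟩ := hE
        rw [hc, mul_comm P.1 c, locS_mul hq, hρ P]
        obtain ⟨l, hl⟩ : ∃ l, P.1.natDegree * s = l + 1 :=
          ⟨P.1.natDegree * s - 1, by have := Nat.mul_pos (MI.deg_pos P) hs; omega⟩
        rw [hl, Finset.sum_range_succ', pow_zero, pow_succ, mul_zero, zero_smul]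
      exact h6
    have hφA : ∀ j < μ, ∀ P : MI k, φ j P = PowerSeries.expand P.1.natDegree (deg_ne P)
        (((((aeval (ρ P) γ) ^ ((Nat.card k ^ P.1.natDegree - 1) / μ)) ^ j) •
          A P).charpolyRev : PowerSeries K) := by
      intro j hj P
      have h6 : locS (MonoidHom.id K) q (tw K p f₀ (MG (E * F j) b m o)) (ρ P)
          (P.1.natDegree * s) = (((aeval (ρ P) γ) ^ ((Nat.card k ^ P.1.natDegree - 1) / μ)) ^ j) •
            A P := by
        rw [locS_mul hq]
        by_cases hE : P.1 ∣ E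
        · rw [hA0 P hE, smul_zero]
          have h7 := hA0 P hE
          rw [hA] at h7
          rw [show locS (MonoidHom.id K) q (tw K p f₀ (MG E b m o)) (ρ P) (P.1.natDegree * s) = 0
            from h7, smul_zero]
        · obtain ⟨δ, hδ⟩ := hF j hj
          have h8 : aeval (ρ P) δ ≠ 0 ∨ j * ((q - 1) / μ) = 0 := by
            by_cases h9 : j * ((q - 1) / μ) = 0
            · exact Or.inr h9
            · left
              intro h0
              apply hE
              apply hγE P.1 P.2.2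
              have h10 : minpoly k (ρ P) = P.1 :=
                (minpoly.eq_of_irreducible_of_monic P.2.2 (hρ P) P.2.1).symm
              have h11 : P.1 ∣ δ := by
                rw [← h10]
                exact minpoly.dvd k _ h0
              have h12 : P.1 ∣ γ ^ (j * ((q - 1) / μ)) := by
                rw [← hδ]
                exact (h11.trans (dvd_pow_self δ (by omega))).mul_left _
              exact P.2.2.prime.dvd_of_dvd_pow h12
          have h9 : aeval (ρ P) δ ≠ 0 := by
            rcases h8 with h8 | h8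
            · exact h8
            · intro h0
              have h10 := congrArg (aeval (ρ P)) hδ
              rw [h8, pow_zero, map_one, map_mul, map_pow, h0, zero_pow (by omega), mul_zero] at h10
              exact zero_ne_one h10
          rw [twist_num P (hρ P) hq1 hμ hμq hδ h9 (by rw [Nat.card_eq_fintype_card, hk])]
      show PowerSeries.expand _ _ _ = _
      rw [h6]
    set ψ : MaximalSpectrum O → PowerSeries K := fun 𝔪 => PowerSeries.expand
      (finrank k (RO k 𝔪)) (finrank_ne' G 𝔪)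
        ((A (pt (k := k) 𝔪) ^ (𝔪.asIdeal.inertiaDeg k[X])).charpolyRev : PowerSeries K) with hψ
    have h1 : (fun 𝔪 : MaximalSpectrum O => PowerSeries.map π (PowerSeries.expand
        (finrank k (RO k 𝔪)) (finrank_ne' G 𝔪) (Q 𝔪 : PowerSeries R))) = ψ := by
      funext 𝔪
      rw [PowerSeries.map_expand, ← Polynomial.polynomial_map_coe, hQ2]
    have hmod : ∀ 𝔪 : MaximalSpectrum O, (PowerSeries.X : PowerSeries K) ^
        (finrank k (RO k 𝔪)) ∣ ψ 𝔪 - 1 := by
      intro 𝔪
      have h2 := congrFun h1 𝔪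
      rw [← h2, PowerSeries.map_expand]
      apply expand_mod
      rw [← Polynomial.polynomial_map_coe, ← PowerSeries.coeff_zero_eq_constantCoeff_apply,
        Polynomial.coeff_coe, Polynomial.coeff_map, hQ0, map_one]
    have h3 : eulerProd (fun P : MI k => P.1.natDegree) (fun P => ∏ 𝔪 ∈
        (above_finite (O := O) G P).toFinset, ψ 𝔪) =
        eulerProd (fun 𝔪 : MaximalSpectrum O => finrank k (RO k 𝔪)) ψ := by
      refine eulerProd_fiber hfink hfin hmod
        (fun P => (above_finite (O := O) G P).toFinset) ?_ ?_ ?_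
      · intro 𝔪
        refine ⟨pt (k := k) 𝔪, ?_⟩
        rw [Set.Finite.mem_toFinset]
        rfl
      · intro P P' 𝔪 h h'
        rw [Set.Finite.mem_toFinset] at h h'
        have e1 : minpoly k (vO k 𝔪 X) = P.1 := h
        have e2 : minpoly k (vO k 𝔪 X) = P'.1 := h'
        exact Subtype.ext (e1.symm.trans e2)
      · intro P 𝔪 h
        rw [Set.Finite.mem_toFinset] at h
        have e1 : (pt (k := k) 𝔪).1 = P.1 := h
        show P.1.natDegree ≤ _
        rw [finrank_RO (k := k) G 𝔪, e1]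
        exact Nat.le_mul_of_pos_right _ (inertiaDeg_pos (k := k) G)
    have hμk : μ ∣ Nat.card k - 1 := by
      rw [Nat.card_eq_fintype_card, hk]
      exact hμq.trans (by simpa using Nat.sub_dvd_pow_sub_pow q 1 s)
    have h4 : (fun P : MI k => ∏ 𝔪 ∈ (above_finite (O := O) G P).toFinset, ψ 𝔪) =
        fun P => (∏ j ∈ Finset.range μ, φ j P) ^ (p ^ g) := by
      funext P
      rw [Finset.prod_congr rfl fun j hj => hφA j (Finset.mem_range.1 hj) P]
      exact fibre_prod G hKD hKC hμ hμk hG w γ hw hact hstab E hγE hun A hA0 P (hρ P)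
    have h5' : eulerProd (fun P : MI k => P.1.natDegree)
        (fun P => (∏ j ∈ Finset.range μ, φ j P) ^ (p ^ g)) =
        (∏ j ∈ Finset.range μ, eulerProd (fun P : MI k => P.1.natDegree) (φ j)) ^ (p ^ g) := by
      have e1 := eulerProd_prod hfink (Finset.range μ) (fun j P => φ j P) (fun j P => hφ1 j P)
      have hΦ : ∀ P : MI k, (PowerSeries.X : PowerSeries K) ^ P.1.natDegree ∣
          (∏ j ∈ Finset.range μ, φ j P) - 1 := by
        intro P
        have h6 := prod_congr_mod (Finset.range μ) (fun j => φ j P) (fun _ => 1) P.1.natDegree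
          (fun j _ => hφ1 j P)
        rwa [Finset.prod_const_one] at h6
      have e2 := eulerProd_prod hfink (Finset.range (p ^ g))
        (fun _ P => ∏ j ∈ Finset.range μ, φ j P) (fun _ P => hΦ P)
      simp only [Finset.prod_const, Finset.card_range] at e2
      rw [e2, e1]
    rw [h1, ← h3, h4, h5', Polynomial.coe_pow, ← mul_pow]
    have h6 : ∀ j ∈ Finset.range μ, eulerProd (fun P : MI k => P.1.natDegree) (φ j) *
        ((mprod (fun i => kmat q n (tw K p f₀ (MG (E * F j) b m o) i))
          s).charpolyRev : PowerSeries K) = 1 := by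
      intro j hj
      rw [Finset.mem_range] at hj
      exact formula_modS (k := k) (K := K) (m := n) hs (by omega)
        (by rw [Nat.card_eq_fintype_card, hk]) (tw K p f₀ (MG (E * F j) b m o))
        (tw_per hq hk _)
        (fun i x y => (tw_deg (MG _ b m o) i x y).trans_lt
          ((natDegree_MG _ hb hm o x y).trans_lt (hn j hj))) ρ hρ
    have h7 : ((∏ j ∈ Finset.range μ, (mprod (fun i => kmat q n (tw K p f₀
        (MG (E * F j) b m o) i)) s).charpolyRev : K[X]) : PowerSeries K) =
        ∏ j ∈ Finset.range μ, ((mprod (fun i => kmat q n (tw K p f₀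
          (MG (E * F j) b m o) i)) s).charpolyRev : PowerSeries K) :=
      coe_prod' _ _
    rw [h7, ← Finset.prod_mul_distrib, Finset.prod_congr rfl h6, Finset.prod_const_one, one_pow]

end glob

end Pool.Agent.Y709.Kum
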