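import Mathlib.RingTheory.Invariant.Galois
import Mathlib.RingTheory.Spectrum.Maximal.Basic
import Mathlib.RingTheory.PowerSeries.Expand
import Mathlib.LinearAlgebra.Matrix.Charpoly.Coeff
import Mathlib.GroupTheory.PGroup
import Mathlib.GroupTheory.OrderOfElement
import Mathlib.RingTheory.RamificationInertia.Basic
import Pool.Agent.Y709.Lay.Fibre

/-!
Statements of two lemmas about coverings of the line whose group is an extension of a cyclic group by a
`p`-group.
-/

set_option autoImplicit false

open Polynomial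

namespace Pool.Agent.Y709.Kum

/-- The residue degrees of an unramified point of a Galois covering of the line over a finite field whose
group is an extension of a group of Kummer type by a `p`-group. -/
def KummerDegree : Prop :=
  ∀ (k : Type) [Field k] [Finite k] (O : Type) [CommRing O] [Algebra k[X] O] (Γ : Type) [Group Γ]
    [Finite Γ] [MulSemiringAction Γ O] [IsGaloisGroup Γ k[X] O] (p : ℕ) [Fact p.Prime] (μ : ℕ)
    (_ : 0 < μ) (_ : μ ∣ Nat.card k - 1) (w : O) (g : k[X]) (_ : w ^ μ = algebraMap k[X] O g)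
    (_ : ∀ σ : Γ, ∃ c : k, σ • w = algebraMap k[X] O (C c) * w)
    (_ : IsPGroup p (MulAction.stabilizer Γ w)) (𝔪 : MaximalSpectrum O)
    (_ : 𝔪.asIdeal.inertia Γ = ⊥) (_ : w ∉ 𝔪.asIdeal) (d : ℕ)
    (_ : d = Module.finrank k (k[X] ⧸ 𝔪.asIdeal.under k[X])),
    ∃ c : ℕ, 𝔪.asIdeal.inertiaDeg k[X] =
      orderOf ((Ideal.Quotient.mk 𝔪.asIdeal (algebraMap k[X] O g)) ^
        ((Nat.card k ^ d - 1) / μ)) * p ^ c

/-- The characteristic polynomial of a power of a matrix. -/
def KummerChar : Prop :=
  ∀ (K : Type) [Field K] (p : ℕ) [Fact p.Prime] [CharP K p] (ι : Type) [Fintype ι]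
    [DecidableEq ι] (A : Matrix ι ι K) (u : K) (_ : 0 < orderOf u) (c d e : ℕ) (hd : d ≠ 0)
    (he : e ≠ 0) (_ : e = d * (orderOf u * p ^ c)),
    PowerSeries.expand e he ((A ^ (orderOf u * p ^ c)).charpolyRev : PowerSeries K) =
      (∏ i ∈ Finset.range (orderOf u),
        PowerSeries.expand d hd ((u ^ i • A).charpolyRev : PowerSeries K)) ^ (p ^ c)

end Pool.Agent.Y709.Kum
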