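import Pool.Agent.Y709.Lay.GlobB
import Pool.Agent.Y709.Kum.Stm

/-!
The local factors of twists by Kummer characters.
-/

set_option autoImplicit false
set_option linter.unusedSectionVars false

open Polynomial Module

namespace Pool.Agent.Y709.Kum

open Pool.Agent.W313.Hyp Pool.Agent.W343.BSD Pool.Agent.Y709 Pool.Agent.Y709.Gen
open Pool.Agent.Y709.Lay

section loc

variable {k : Type} [Field k] [Fintype k] {K : Type} [Field K] [Algebra k K] {p f₀ q s : ℕ}
  [hp : Fact p.Prime] [CharP k p] {κ : Type} [Fintype κ] [DecidableEq κ]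

theorem mprod_smul' (c : ℕ → K) (F : ℕ → Matrix κ κ K) (n : ℕ) :
    mprod (fun j => c j • F j) n = (∏ j ∈ Finset.range n, c j) • mprod F n := by
  induction n with
  | zero =>
    rw [Finset.prod_range_zero, one_smul]
    rfl
  | succ n ih =>
    rw [mprod_succ, mprod_succ, ih, Finset.prod_range_succ, Matrix.smul_mul, Matrix.mul_smul,
      smul_smul, mul_comm]

theorem locS_mul (hq : q = p ^ f₀) (E h : k[X]) (b : κ → k[X]) (m : κ → ℕ) (o : κ) (r : K)
    (L : ℕ) :
    locS (MonoidHom.id K) q (tw K p f₀ (MG (E * h) b m o)) r L =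
      ((aeval r h) ^ (∑ i ∈ Finset.range L, q ^ i)) •
        locS (MonoidHom.id K) q (tw K p f₀ (MG E b m o)) r L := by
  unfold locS
  rw [← Finset.prod_pow_eq_pow_sum, ← mprod_smul']
  congr 1
  funext j
  show at' (tw K p f₀ (MG (E * h) b m o) j) (r ^ (q ^ j)) =
    (aeval r h) ^ (q ^ j) • at' (tw K p f₀ (MG E b m o) j) (r ^ (q ^ j))
  rw [at_tw hq, at_tw hq]
  refine Matrix.ext fun x y => ?_
  rw [Matrix.map_apply, Matrix.map_apply, Matrix.smul_apply, Matrix.map_apply, Matrix.map_apply,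
    smul_eq_mul]
  unfold MG
  rw [Matrix.of_apply, Matrix.of_apply, ← mul_pow, ← map_mul]
  congr 2
  ring

theorem exp_eq {μ : ℕ} (hμ : 0 < μ) (hq1 : 1 < q) (hμq : μ ∣ q - 1) (L : ℕ) :
    (q - 1) / μ * ∑ i ∈ Finset.range L, q ^ i = (q ^ L - 1) / μ := by
  obtain ⟨t, ht⟩ := hμq
  have h1 : (q - 1) * ∑ i ∈ Finset.range L, q ^ i = q ^ L - 1 := by
    rw [mul_comm, Nat.geomSum_eq hq1 L]
    exact Nat.div_mul_cancel (by simpa using Nat.sub_dvd_pow_sub_pow q 1 L)
  rw [← h1, ht, Nat.mul_div_cancel_left _ hμ, mul_assoc, Nat.mul_div_cancel_left _ hμ]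

/-- the twist of the product over the conjugates -/
theorem locS_twist (hq : q = p ^ f₀) (hq1 : 1 < q) {μ : ℕ} (hμ : 0 < μ) (hμq : μ ∣ q - 1)
    (E g : k[X]) (b : κ → k[X]) (m : κ → ℕ) (o : κ) (r : K) (L j : ℕ) :
    locS (MonoidHom.id K) q (tw K p f₀ (MG (E * g ^ (j * ((q - 1) / μ))) b m o)) r L =
      (((aeval r g) ^ ((q ^ L - 1) / μ)) ^ j) •
        locS (MonoidHom.id K) q (tw K p f₀ (MG E b m o)) r L := by
  rw [locS_mul hq, map_pow, ← pow_mul, ← pow_mul, ← exp_eq hμ hq1 hμq L]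
  congr 2
  ring

end loc

end Pool.Agent.Y709.Kum
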