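import Pool.Agent.Y709.Kum.GlobF
import Pool.Agent.Y709.Kum.MainK

/-!
Vanishing over a covering whose group is an extension of an abelian group by a `p`-group, and the fixed
vectors.
-/

set_option autoImplicit false
set_option linter.unusedSectionVars false

open Polynomial Module

namespace Pool.Agent.Y709.Kum

open Pool.Agent.W313.Hyp Pool.Agent.W343.BSD Pool.Agent.Y709 Pool.Agent.Y709.Gen
open Pool.Agent.Y709.Lay

section fix

variable {k₀ k : Type} [Field k₀] [Fintype k₀] [Field k] [Fintype k] [Algebra k₀ k]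
  {p f₀ q s : ℕ} [hp : Fact p.Prime] [CharP k p]
  {O : Type} [CommRing O] [Algebra k[X] O] (G : Type) [Group G] [Finite G]
  [MulSemiringAction G O] [IsGaloisGroup G k[X] O] [FaithfulSMul k[X] O]

include G in
/-- vanishing over the covering gives a fixed vector -/
theorem fixed_of_vanishF (hKD : KummerDegreeFam) (hKP : KummerProd) (hq : q = p ^ f₀) (hf₀ : 0 < f₀) (hk₀ : Fintype.card k₀ = q) (hs : 0 < s)
    (hk : Fintype.card k = q ^ s) (h5 : 5 ≤ q) {μ g a n₀ h : ℕ} (hμ : 0 < μ) (hμq : μ ∣ q - 1)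
    (hG : Nat.card G = n₀ * p ^ g) (hh : μ ^ a = n₀ * h)
    (w₀ : Fin a → O) (γ : Fin a → k[X]) (hw₀ : ∀ i, w₀ i ^ μ = algebraMap k[X] O (γ i))
    (hact : ∀ i, ∀ σ : G, ∃ c : k, σ • w₀ i = algebraMap k[X] O (C c) * w₀ i)
    (hstab : IsPGroup p (⨅ i, MulAction.stabilizer G (w₀ i) : Subgroup G))
    (χ : MulChar k₀ ℂ) (hχ : orderOf χ = q - 1) {κ : Type} [Fintype κ] [DecidableEq κ]
    (E : k[X]) (hγE : ∀ i, ∀ P : k[X], Irreducible P → P ∣ γ i → P ∣ E)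
    (F : (Fin a → Fin μ) → k[X])
    (hF : ∀ v, ∃ δ : k[X], F v * δ ^ (q - 1) = ∏ i, γ i ^ ((v i : ℕ) * ((q - 1) / μ)))
    (b : κ → k[X]) {m : κ → ℕ} (hm : ∀ i, 0 < m i) (hmq : ∑ i, m i < q - 1)
    (hinv : ∀ i : ℕ, i < ∑ l, m l → ((i : k₀) + 1) ≠ 0) (o : κ)
    (hun : ∀ 𝔪 : MaximalSpectrum O, vO k 𝔪 E ≠ 0 → 𝔪.asIdeal.inertia G = ⊥) (H : ℂ[X])
    (hH : LO O χ E b m =
      (((1 - C (((q ^ s : ℕ)) : ℂ) * X) * H : ℂ[X]) : PowerSeries ℂ)) :
    ∃ l, ∃ w : κ → k[X], w ≠ 0 ∧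
      ∀ i, cart q (∑ j, E * F l * phi k b m o i j * w j) =
        (w i).map (iterateFrobenius k p f₀) := by
  let K := AlgebraicClosure k
  have hpK : CharP K p := charP_of_injective_algebraMap (algebraMap k K).injective p
  have hpk₀ : CharP k₀ p := (algebraMap k₀ k).charP (algebraMap k₀ k).injective p
  have hc0 := witt_charZero p K
  obtain ⟨H', hH'⟩ := transfer χ (by rw [hχ, hk₀]) (teichChar (k := k₀) p K)
    (orderOf_teichChar p K) _ (cover_finite (k := k) G)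
    (fun z : Σ 𝔪 : MaximalSpectrum O, MI (RO k 𝔪) => Algebra.norm k₀ (AdjoinRoot.mk z.2.1
      (fibp (vO k z.1 E) (fun i => vO k z.1 (b i)) m))) (q ^ s) H hH
  set d := ∑ i, (b i).natDegree with hd
  have hb : ∀ i, (b i).natDegree ≤ d := fun i =>
    Finset.single_le_sum (f := fun i => (b i).natDegree) (fun _ _ => Nat.zero_le _)
      (Finset.mem_univ i)
  set e := E.natDegree + (∑ l, (F l).natDegree) + d * ∑ i, m i with he
  have hn : ∀ l, (E * F l).natDegree + d * ∑ i, m i < (q - 1) * (e + 1) := by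
    intro l
    have h1 : 1 * (e + 1) ≤ (q - 1) * (e + 1) := Nat.mul_le_mul_right _ (by omega)
    have h3 : (F l).natDegree ≤ ∑ l, (F l).natDegree :=
      Finset.single_le_sum (f := fun l => (F l).natDegree) (fun _ _ => Nat.zero_le _)
        (Finset.mem_univ l)
    have h2 : (E * F l).natDegree ≤ E.natDegree + (F l).natDegree := natDegree_mul_le
    omega
  obtain ⟨L, h1, h2⟩ := global_feF (k₀ := k₀) (k := k) (K := K)
    (WittVector.constantCoeff (p := p) (R := K))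
    (fun r hr => WittVector.isUnit_of_coeff_zero_ne_zero r hr) (teichChar (k := k₀) p K)
    (fun u => by
      rw [teichChar_apply, IsScalarTower.algebraMap_apply k₀ k K]
      exact coeff_teich p K _) G hKD Pool.Agent.Y710.Kum.kummerChar hKP
      hq hf₀ hk₀ hs hk h5 hμ hμq hG hh w₀ γ hw₀ hact hstab E hγE F hF b hb hm hmq hinv o hn hun
  have hh0 : h ≠ 0 := by
    intro h0
    rw [h0, mul_zero] at hh
    exact (pow_pos hμ a).ne' hh
  obtain ⟨h', rfl⟩ : ∃ h', h = h' + 1 := ⟨h - 1, by omega⟩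
  have h1' := congrArg (· ^ (h' + 1)) h1
  rw [mul_pow, one_pow, ← map_pow (PowerSeries.rescale _)] at h1'
  rw [← map_pow (PowerSeries.map _)] at h2
  have hH'' := congrArg (· ^ (h' + 1)) hH'
  rw [← Polynomial.coe_pow, mul_pow, pow_succ' (1 - C _ * X : (WittVector p K)[X]),
    mul_assoc] at hH''
  have h3 := eval_of_fe (WittVector.constantCoeff (p := p) (R := K)) (q := q ^ s)
    (pow_ne_zero _ (by omega)) (by rw [Nat.cast_pow]; exact h1') h2 _ hH''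
  rw [eval_pow] at h3
  have h4 := eq_zero_of_pow_eq_zero h3
  rw [eval_prod, Finset.prod_eq_zero_iff] at h4
  obtain ⟨l, _, h5⟩ := h4
  refine ⟨l, ?_⟩
  exact fixed_of_detS hq (by omega) hs hk e (MG (E * F l) b m o)
    (fun i j => (natDegree_MG _ hb hm o i j).trans_lt (hn l)) h5

end fix

section count

/-- a function over a covering of Kummer type vanishes at a point with `(q ^ s T) ^ e = 1` -/
def VanF (k₀ : Type) [Field k₀] {k : Type} [Field k] [Algebra k₀ k] (p q s e μ a : ℕ)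
    (γ : Fin a → k[X]) {κ : Type} [Fintype κ] (E : k[X]) (b : κ → k[X]) (m : κ → ℕ) : Prop :=
  ∃ (G O : Type) (_ : Group G) (_ : Finite G) (_ : CommRing O) (_ : Algebra k[X] O)
    (_ : MulSemiringAction G O) (_ : IsGaloisGroup G k[X] O) (_ : FaithfulSMul k[X] O)
    (w : Fin a → O), (∀ i, w i ^ μ = algebraMap k[X] O (γ i)) ∧
    (∀ i, ∀ σ : G, ∃ c : k, σ • w i = algebraMap k[X] O (C c) * w i) ∧
    IsPGroup p (⨅ i, MulAction.stabilizer G (w i) : Subgroup G) ∧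
    (∀ 𝔪 : MaximalSpectrum O, vO k 𝔪 E ≠ 0 → 𝔪.asIdeal.inertia G = ⊥) ∧
    ∃ χ : MulChar k₀ ℂ, orderOf χ = q - 1 ∧ ∃ ζ : ℂ, ζ ^ e = 1 ∧ ∃ H : ℂ[X],
      LO O χ E b m = (((1 - C (((q ^ s : ℕ) : ℂ) * ζ) * X) * H : ℂ[X]) : PowerSeries ℂ)

variable {k₀ k : Type} [Field k₀] [Fintype k₀] [Field k] [Fintype k] [Algebra k₀ k]
  {p f₀ q s r : ℕ} [hp : Fact p.Prime] [CharP k p]

/-- **the twists with a zero over some covering, up to constants, have a fixed vector** -/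
theorem sub_of_vanF (hKD : KummerDegreeFam) (hKP : KummerProd) (hKO : KummerOrder) (hq : q = p ^ f₀) (hf₀ : 0 < f₀) (hk₀ : Fintype.card k₀ = q)
    (hs : 0 < s) (hk : Fintype.card k = q ^ s) (h5 : 5 ≤ q) (B : k[X]) (b : Fin (r + 1) → k[X])
    (m : Fin (r + 1) → ℕ) (hm : ∀ i, 0 < m i) (hmq : ∑ i, m i < q - 1)
    (hinv : ∀ i : ℕ, i < ∑ l, m l → ((i : k₀) + 1) ≠ 0) (N e : ℕ) (he : e ∣ q - 1)
    {μ a : ℕ} (hμ : 0 < μ) (hμq : μ ∣ q - 1) (γ : Fin a → k[X]) (hγ0 : ∀ i, γ i ≠ 0)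
    (hγ : ∀ i, ∀ P : k[X], Irreducible P → P ∣ γ i → P ∣ B) (F : (Fin a → Fin μ) → k[X])
    (hF : ∀ v, ∃ δ : k[X], F v * δ ^ (q - 1) = ∏ i, γ i ^ ((v i : ℕ) * ((q - 1) / μ))) :
    ∃ S : Finset k, S.card ≤ e ∧ (∀ u ∈ S, u ≠ 0) ∧
    {D : k[X] | D.natDegree ≤ N ∧ VanF k₀ p q s e μ a γ (D * B) b m} ⊆
      ⋃ u ∈ S, ⋃ l ∈ (Finset.univ : Finset (Fin a → Fin μ)), (fun D => C u * D) '' {D : k[X] | D.natDegree ≤ N ∧
        ∃ w : Fin r → k[X], w ≠ 0 ∧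
        ∀ i, cart q (D * ∑ j, minor (B * F l) b m i j * w j) =
          (w i).map (iterateFrobenius k p f₀)} := by
  classical
  have hq1 : 0 < q - 1 := by omega
  have hnz : NeZero (q - 1) := ⟨hq1.ne'⟩
  have he0 : 0 < e := Nat.pos_of_dvd_of_pos he hq1
  set S₀ : Finset k₀ := (Polynomial.nthRoots e (1 : k₀)).toFinset with hS₀
  have hSc : S₀.card ≤ e := (Multiset.toFinset_card_le _).trans (card_nthRoots e 1)
  have hsurj := FiniteField.norm_surjective k₀ k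
  choose ν hν using hsurj
  have hS₀0 : ∀ a ∈ S₀, a ≠ 0 := by
    intro a ha h
    rw [hS₀, Multiset.mem_toFinset, Polynomial.mem_nthRoots he0, h, zero_pow he0.ne'] at ha
    exact zero_ne_one ha
  have hν0 : ∀ a : k₀, a ≠ 0 → ν a ≠ 0 := by
    intro a ha h
    apply ha
    rw [← hν a, h, Algebra.norm_zero]
  refine ⟨S₀.image ν, Finset.card_image_le.trans hSc, ?_, ?_⟩
  · intro u hu
    obtain ⟨a, ha, rfl⟩ := Finset.mem_image.1 hu
    exact hν0 a (hS₀0 a ha)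
  rintro D ⟨hD, G, O, i1, i2, i3, i4, i5, i6, i7, w₀, hw₀, hact, hstab, hun, χ, hχ, ζ,
    hζ, H, hH⟩
  have hμk : μ ∣ Nat.card k - 1 := by
    rw [Nat.card_eq_fintype_card, hk]
    exact hμq.trans (by simpa using Nat.sub_dvd_pow_sub_pow q 1 s)
  obtain ⟨n₀, g', hG, h, hh⟩ := hKO k O G p μ a hμ hμk w₀ γ hw₀ hγ0 hact hstab
  obtain ⟨g, hg⟩ := IsCyclic.exists_generator (α := k₀ˣ)
  have hprim := prim_of_order χ hq1 hχ hg
  have hζ0 : ζ ≠ 0 := by
    intro h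
    rw [h, zero_pow he0.ne'] at hζ
    exact zero_ne_one hζ
  have hζ' : ζ ^ (q - 1) = 1 := by
    obtain ⟨c, hc⟩ := he
    rw [hc, pow_mul, hζ, one_pow]
  obtain ⟨i, _, hi⟩ := hprim.eq_pow_of_pow_eq_one hζ'
  have hgq : ((g : k₀)) ^ (i * e) = 1 := by
    have h6 : (χ (g : k₀)) ^ (i * e) = 1 := by rw [pow_mul, hi, hζ]
    have h7 := hprim.dvd_of_pow_eq_one _ h6
    obtain ⟨c, hc⟩ := h7
    rw [hc, pow_mul, ← hk₀, FiniteField.pow_card_sub_one_eq_one _ g.ne_zero, one_pow]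
  set a' : k₀ := (g : k₀) ^ i with ha
  have ha0 : a' ≠ 0 := pow_ne_zero _ g.ne_zero
  set u : k := ν a' with hu
  have hu0 : u ≠ 0 := hν0 a' ha0
  have huN : Algebra.norm k₀ u = a' := hν a'
  rw [Set.mem_iUnion₂]
  refine ⟨u, Finset.mem_image.2 ⟨a', ?_, rfl⟩, ?_⟩
  · rw [hS₀, Multiset.mem_toFinset, Polynomial.mem_nthRoots he0, ha, ← pow_mul]
    exact hgq
  have h6 : χ (Algebra.norm k₀ (u⁻¹)) = ζ⁻¹ := by
    have h7 : χ (Algebra.norm k₀ (u⁻¹)) * χ (Algebra.norm k₀ u) = 1 := by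
      rw [← map_mul, ← map_mul, inv_mul_cancel₀ hu0, map_one, map_one]
    rw [huN, ha, map_pow, hi] at h7
    exact eq_inv_of_mul_eq_one_left h7
  have h8 : ∀ H : ℂ[X], PowerSeries.rescale ζ⁻¹ (H : PowerSeries ℂ) =
      ((H.comp (C ζ⁻¹ * X) : ℂ[X]) : PowerSeries ℂ) := by
    intro H
    ext n
    rw [PowerSeries.coeff_rescale, Polynomial.coeff_coe, Polynomial.coeff_coe,
      comp_C_mul_X_coeff, mul_comm]
  have h9 : LO O χ (C (u⁻¹) * D * B) b m =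
      (((1 - C (((q ^ s : ℕ)) : ℂ) * X) * H.comp (C ζ⁻¹ * X) : ℂ[X]) : PowerSeries ℂ) := by
    rw [mul_assoc, LO_C_mul G, hH, h6, h8]
    congr 1
    rw [mul_comp, sub_comp, one_comp, mul_comp, C_comp, X_comp, C_mul]
    congr 2
    rw [mul_assoc, ← mul_assoc (C ζ), ← C_mul, mul_inv_cancel₀ hζ0, C_1, one_mul]
  obtain ⟨l, w, hw0, hw⟩ := fixed_of_vanishF (O := O) G hKD hKP hq hf₀ hk₀ hs hk h5 hμ hμq hG hh w₀
    γ hw₀ hact hstab χ hχ (C (u⁻¹) * D * B) (fun i P h1 h2 => (hγ i P h1 h2).mul_left _) F hF b hm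
    hmq hinv 0 (by
      intro 𝔪 h𝔪
      apply hun
      intro h0
      apply h𝔪
      rw [mul_assoc, map_mul, h0, mul_zero]) _ h9
  rw [Set.mem_iUnion₂]
  refine ⟨l, Finset.mem_univ l, C (u⁻¹) * D, ⟨(natDegree_C_mul_le _ _).trans hD, ?_⟩, ?_⟩
  · refine minor_of_fixed (by omega) (B * F l) b m (C (u⁻¹) * D) w hw0 ?_
    rw [← mul_assoc]
    exact hw
  · show C u * (C (u⁻¹) * D) = D
    rw [← mul_assoc, ← C_mul, mul_inv_cancel₀ hu0, C_1, one_mul]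

/-- **the number of the twists with a zero over some covering** -/
theorem countF_of_bound (hKD : KummerDegreeFam) (hKP : KummerProd) (hKO : KummerOrder) (hq : q = p ^ f₀) (hf₀ : 0 < f₀) (hk₀ : Fintype.card k₀ = q)
    (hs : 0 < s) (hk : Fintype.card k = q ^ s) (h5 : 5 ≤ q) (B : k[X]) (b : Fin (r + 1) → k[X])
    (m : Fin (r + 1) → ℕ) (hm : ∀ i, 0 < m i) (hmq : ∑ i, m i < q - 1)
    (hinv : ∀ i : ℕ, i < ∑ l, m l → ((i : k₀) + 1) ≠ 0) (N e K : ℕ) (he : e ∣ q - 1)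
    {μ a : ℕ} (hμ : 0 < μ) (hμq : μ ∣ q - 1) (γ : Fin a → k[X]) (hγ0 : ∀ i, γ i ≠ 0)
    (hγ : ∀ i, ∀ P : k[X], Irreducible P → P ∣ γ i → P ∣ B) (F : (Fin a → Fin μ) → k[X])
    (hF : ∀ v, ∃ δ : k[X], F v * δ ^ (q - 1) = ∏ i, γ i ^ ((v i : ℕ) * ((q - 1) / μ)))
    (hK : ∀ l, Nat.card {D : k[X] // D.natDegree ≤ N ∧ ∃ w : Fin r → k[X], w ≠ 0 ∧
      ∀ i, cart q (D * ∑ j, minor (B * F l) b m i j * w j) =
        (w i).map (iterateFrobenius k p f₀)} ≤ K) :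
    {D : k[X] | D.natDegree ≤ N ∧ VanF k₀ p q s e μ a γ (D * B) b m}.ncard ≤ e * (μ ^ a * K) := by
  classical
  obtain ⟨S, hSc, _, hsub⟩ := sub_of_vanF (k₀ := k₀) hKD hKP hKO hq hf₀ hk₀ hs hk h5 B b m hm hmq hinv N e he
    hμ hμq γ hγ0 hγ F hF
  set V := fun l : Fin a → Fin μ => {D : k[X] | D.natDegree ≤ N ∧ ∃ w : Fin r → k[X], w ≠ 0 ∧
    ∀ i, cart q (D * ∑ j, minor (B * F l) b m i j * w j) =
      (w i).map (iterateFrobenius k p f₀)} with hV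
  have hVf : ∀ l, (V l).Finite := fun l => (finite_natDegree_le N).subset fun D hD => hD.1
  have hVc : ∀ l, (V l).ncard ≤ K := fun l =>
    (le_of_eq (Nat.card_coe_set_eq _).symm).trans (hK l)
  have hfin : (⋃ u ∈ S, ⋃ l ∈ (Finset.univ : Finset (Fin a → Fin μ)), (fun D => C u * D) '' V l).Finite :=
    S.finite_toSet.biUnion fun u _ => (Finset.univ : Finset (Fin a → Fin μ)).finite_toSet.biUnion fun l _ =>
      (hVf l).image _
  refine (Set.ncard_le_ncard hsub hfin).trans ?_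
  have h6 : (⋃ u ∈ S, ⋃ l ∈ (Finset.univ : Finset (Fin a → Fin μ)), (fun D => C u * D) '' V l).ncard ≤
      ∑ u ∈ S, ∑ l : Fin a → Fin μ, (V l).ncard := by
    refine (Finset.set_ncard_biUnion_le S _).trans (Finset.sum_le_sum fun u _ => ?_)
    refine (Finset.set_ncard_biUnion_le (Finset.univ : Finset (Fin a → Fin μ)) _).trans
      (Finset.sum_le_sum fun l _ => ?_)
    exact Set.ncard_image_le (hVf l)
  refine h6.trans ?_
  have h7 : ∑ l : Fin a → Fin μ, (V l).ncard ≤ μ ^ a * K := by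
    refine (Finset.sum_le_sum fun l _ => hVc l).trans ?_
    rw [Finset.sum_const, smul_eq_mul, Finset.card_univ, Fintype.card_fun, Fintype.card_fin,
      Fintype.card_fin]
  rw [Finset.sum_const, smul_eq_mul]
  exact Nat.mul_le_mul hSc h7

end count

section lo

variable {k₀ k : Type} [Field k₀] [Fintype k₀] [Field k] [Fintype k] [Algebra k₀ k]

/-- some function over a covering of Kummer type vanishes -/
def VanFX {k : Type} [Field k] (p n e μ a : ℕ) (γ : Fin a → k[X]) {κ : Type} [Fintype κ] (E : k[X])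
    (b : κ → k[X]) (m : κ → ℕ) : Prop :=
  ∃ (G O : Type) (_ : Group G) (_ : Finite G) (_ : CommRing O) (_ : Algebra k[X] O)
    (_ : MulSemiringAction G O) (_ : IsGaloisGroup G k[X] O) (_ : FaithfulSMul k[X] O)
    (w : Fin a → O), (∀ i, w i ^ μ = algebraMap k[X] O (γ i)) ∧
    (∀ i, ∀ σ : G, ∃ c : k, σ • w i = algebraMap k[X] O (C c) * w i) ∧
    IsPGroup p (⨅ i, MulAction.stabilizer G (w i) : Subgroup G) ∧
    (∀ 𝔪 : MaximalSpectrum O, vO k 𝔪 E ≠ 0 → 𝔪.asIdeal.inertia G = ⊥) ∧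
    ∃ χ : MulChar k ℂ, orderOf χ = n ∧ ∃ ζ : ℂ, ζ ^ e = 1 ∧ ∃ H : ℂ[X],
      LO O χ E b m = (((1 - C ((Nat.card k : ℂ) * ζ) * X) * H : ℂ[X]) : PowerSeries ℂ)

theorem vanF_of_vanFX {p q s e μ a : ℕ} {γ : Fin a → k[X]} {κ : Type} [Fintype κ]
    (hk₀ : Fintype.card k₀ = q) (hk : Fintype.card k = q ^ s)
    {E : k[X]} {b : κ → k[X]} {m : κ → ℕ} (h : VanFX p (q - 1) e μ a γ E b m) :
    VanF k₀ p q s e μ a γ E b m := by
  obtain ⟨G, O, i1, i2, i3, i4, i5, i6, i7, w, hw, hact, hstab, hun, χ', hχ', ζ, hζ, H, hH⟩ := h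
  obtain ⟨χ, hχ, hcomp⟩ := exists_char hk₀ χ' hχ'
  refine ⟨G, O, i1, i2, i3, i4, i5, i6, i7, w, hw, hact, hstab, hun, χ, hχ, ζ, hζ, H, ?_⟩
  rw [← LO_norm G hcomp, hH, Nat.card_eq_fintype_card, hk]

end lo

end Pool.Agent.Y709.Kum
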